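import Pool.Agent.W989.FT.Defs

/-!
# Piecewise constant schedules
-/

open MeasureTheory Set

namespace Pool.Agent.W989.FT

/-- Speed and job at time `t` of the schedule that consists of phases (duration, speed, job). -/
noncomputable def phAt : List (ℝ × ℝ × ℕ) → ℝ → ℝ × ℕ
  | [], _ => (0, 0)
  | x :: l, t => if t < x.1 then (x.2.1, x.2.2) else phAt l (t - x.1)

/-- The schedule given by a list of phases (duration, speed, job), one after the other from time
`0` on. -/
noncomputable def ofPh (l : List (ℝ × ℝ × ℕ)) : Sched := ⟨fun t => (phAt l t).1, fun t => (phAt l t).2⟩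

/-- total duration -/
noncomputable def dur (l : List (ℝ × ℝ × ℕ)) : ℝ := (l.map (fun x => x.1)).sum

@[simp] theorem dur_nil : dur [] = 0 := rfl
@[simp] theorem dur_cons (x : ℝ × ℝ × ℕ) (l) : dur (x :: l) = x.1 + dur l := by simp [dur]
@[simp] theorem dur_append (l l' : List (ℝ × ℝ × ℕ)) : dur (l ++ l') = dur l + dur l' := by
  simp [dur]

theorem dur_nonneg {l : List (ℝ × ℝ × ℕ)} (h : ∀ x ∈ l, 0 ≤ x.1) : 0 ≤ dur l := by
  unfold dur
  exact List.sum_nonneg (by simpa using fun a b c hx => h _ hx)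

theorem phAt_of_dur_le {l : List (ℝ × ℝ × ℕ)} (h : ∀ x ∈ l, 0 ≤ x.1) {t : ℝ} (ht : dur l ≤ t) :
    phAt l t = (0, 0) := by
  induction l generalizing t with
  | nil => rfl
  | cons x l ih =>
    have hl := dur_nonneg (fun y hy => h y (List.mem_cons_of_mem _ hy))
    rw [dur_cons] at ht
    rw [phAt, if_neg (by linarith)]
    exact ih (fun y hy => h y (List.mem_cons_of_mem _ hy)) (by linarith)

theorem phAt_append {l l' : List (ℝ × ℝ × ℕ)} (h : ∀ x ∈ l, 0 ≤ x.1) {t : ℝ} (ht : 0 ≤ t) :
    phAt (l ++ l') t = if t < dur l then phAt l t else phAt l' (t - dur l) := by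
  induction l generalizing t with
  | nil =>
    simp only [List.nil_append, dur_nil, sub_zero, phAt]
    rw [if_neg (not_lt.2 ht)]
  | cons x l ih =>
    have hl := dur_nonneg (fun y hy => h y (List.mem_cons_of_mem _ hy))
    have hx := h x (List.mem_cons_self ..)
    rw [List.cons_append, phAt, phAt, dur_cons]
    by_cases h1 : t < x.1
    · rw [if_pos h1, if_pos h1, if_pos (by linarith)]
    · rw [if_neg h1, if_neg h1, ih (fun y hy => h y (List.mem_cons_of_mem _ hy)) (by linarith)]
      by_cases h2 : t - x.1 < dur l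
      · rw [if_pos h2, if_pos (by linarith)]
      · rw [if_neg h2, if_neg (by linarith), sub_sub]

theorem measurable_phAt (l : List (ℝ × ℝ × ℕ)) : Measurable (phAt l) := by
  induction l with
  | nil => exact measurable_const
  | cons x l ih =>
    have : phAt (x :: l) = fun t => if t < x.1 then (x.2.1, x.2.2) else phAt l (t - x.1) := by
      funext t; rfl
    rw [this]
    exact Measurable.ite measurableSet_Iio measurable_const
      (ih.comp (measurable_id.sub_const x.1))

/-- Integral of a function of speed and job over the phases until time `T`. -/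
noncomputable def IP (F : ℝ × ℕ → ℝ) : List (ℝ × ℝ × ℕ) → ℝ → ℝ
  | [], _ => 0
  | x :: l, T => if T ≤ x.1 then F x.2 * T else F x.2 * x.1 + IP F l (T - x.1)

theorem bound_phAt (F : ℝ × ℕ → ℝ) (hF0 : F (0, 0) = 0) (l : List (ℝ × ℝ × ℕ)) :
    ∃ C, ∀ t, ‖F (phAt l t)‖ ≤ C := by
  induction l with
  | nil => exact ⟨0, fun t => by simp [phAt, hF0]⟩
  | cons x l ih =>
    obtain ⟨C, hC⟩ := ih
    refine ⟨max C ‖F x.2‖, fun t => ?_⟩
    rw [phAt]
    split_ifs
    · exact le_max_right _ _
    · exact (hC _).trans (le_max_left _ _)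

theorem ii_phAt {F : ℝ × ℕ → ℝ} (hF : Measurable F) (hF0 : F (0, 0) = 0) (l : List (ℝ × ℝ × ℕ))
    (x y : ℝ) : IntervalIntegrable (fun t => F (phAt l t)) volume x y := by
  obtain ⟨C, hC⟩ := bound_phAt F hF0 l
  rw [intervalIntegrable_iff]
  refine Measure.integrableOn_of_bounded (M := C) (by simp)
    (hF.comp (measurable_phAt l)).aestronglyMeasurable ?_
  exact Filter.Eventually.of_forall hC

theorem integral_phAt {F : ℝ × ℕ → ℝ} (hF : Measurable F) (hF0 : F (0, 0) = 0)
    {l : List (ℝ × ℝ × ℕ)} (h : ∀ x ∈ l, 0 ≤ x.1) {T : ℝ} (hT : 0 ≤ T) :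
    ∫ t in (0 : ℝ)..T, F (phAt l t) = IP F l T := by
  induction l generalizing T with
  | nil => simp [phAt, IP, hF0]
  | cons x l ih =>
    have hx := h x (List.mem_cons_self ..)
    have key : ∀ T' : ℝ, 0 ≤ T' → T' ≤ x.1 → ∫ t in (0 : ℝ)..T', F (phAt (x :: l) t) = F x.2 * T' := by
      intro T' hT' hle
      rw [intervalIntegral.integral_of_le hT', integral_Ioc_eq_integral_Ioo]
      have : ∫ t in Ioo 0 T', F (phAt (x :: l) t) = ∫ t in Ioo 0 T', F x.2 := by
        refine setIntegral_congr_fun measurableSet_Ioo fun t ht => ?_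
        simp only [phAt]
        rw [if_pos (lt_of_lt_of_le ht.2 hle)]
      rw [this, ← integral_Ioc_eq_integral_Ioo, ← intervalIntegral.integral_of_le hT',
        intervalIntegral.integral_const, smul_eq_mul]
      ring
    rw [IP]
    split_ifs with h1
    · exact key T hT h1
    · push Not at h1
      rw [← intervalIntegral.integral_add_adjacent_intervals (ii_phAt hF hF0 _ 0 x.1)
        (ii_phAt hF hF0 _ x.1 T), key x.1 hx le_rfl]
      congr 1
      have e1 : ∫ t in x.1..T, F (phAt (x :: l) t) = ∫ t in x.1..T, F (phAt l (t - x.1)) := by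
        refine intervalIntegral.integral_congr fun t ht => ?_
        rw [uIcc_of_le h1.le] at ht
        simp only [phAt]
        rw [if_neg (not_lt.2 ht.1)]
      rw [e1, intervalIntegral.integral_comp_sub_right (fun t => F (phAt l t)), sub_self]
      exact ih (fun y hy => h y (List.mem_cons_of_mem _ hy)) (by linarith)

theorem IP_append {F : ℝ × ℕ → ℝ} {l l' : List (ℝ × ℝ × ℕ)} (h : ∀ x ∈ l, 0 ≤ x.1)
    (h' : ∀ x ∈ l', 0 ≤ x.1) {T : ℝ} (hT : 0 ≤ T) :
    IP F (l ++ l') T = if T ≤ dur l then IP F l T else IP F l (dur l) + IP F l' (T - dur l) := by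
  induction l generalizing T with
  | nil =>
    simp only [List.nil_append, dur_nil, sub_zero, IP, zero_add]
    split_ifs with h1
    · have : T = 0 := le_antisymm h1 hT
      subst this
      cases l' with
      | nil => rfl
      | cons x l' => rw [IP, if_pos (h' x (List.mem_cons_self ..)), mul_zero]
    · rfl
  | cons x l ih =>
    have hl := dur_nonneg (fun y hy => h y (List.mem_cons_of_mem _ hy))
    have hx := h x (List.mem_cons_self ..)
    rw [List.cons_append, IP, IP, IP, dur_cons]
    by_cases h1 : T ≤ x.1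
    · rw [if_pos h1, if_pos h1, if_pos (by linarith)]
    · rw [if_neg h1, if_neg h1, ih (fun y hy => h y (List.mem_cons_of_mem _ hy)) (by linarith)]
      by_cases h2 : T - x.1 ≤ dur l
      · rw [if_pos h2, if_pos (by linarith)]
      · rw [if_neg h2, if_neg (by linarith), sub_sub]
        by_cases h3 : x.1 + dur l ≤ x.1
        · have h4 : dur l = 0 := by linarith
          rw [if_pos h3, h4]
          have : IP F l 0 = 0 := by
            cases l with
            | nil => rfl
            | cons y l => rw [IP, if_pos (h y (by simp)), mul_zero]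
          rw [this]
          ring
        · rw [if_neg h3, add_sub_cancel_left]
          ring

theorem integral_Ioi_phAt {F : ℝ × ℕ → ℝ} (hF : Measurable F) (hF0 : F (0, 0) = 0)
    {l : List (ℝ × ℝ × ℕ)} (h : ∀ x ∈ l, 0 ≤ x.1) :
    IntegrableOn (fun t => F (phAt l t)) (Ioi 0) ∧
      ∫ t in Ioi (0 : ℝ), F (phAt l t) = IP F l (dur l) := by
  have hd := dur_nonneg h
  have h1 : IntegrableOn (fun t => F (phAt l t)) (Ioc 0 (dur l)) :=
    (intervalIntegrable_iff_integrableOn_Ioc_of_le hd).1 (ii_phAt hF hF0 l 0 (dur l))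
  have h0 : ∀ t ∈ Ioi (dur l), F (phAt l t) = 0 := by
    intro t ht
    rw [phAt_of_dur_le h (le_of_lt ht), hF0]
  have h2 : IntegrableOn (fun t => F (phAt l t)) (Ioi (dur l)) := by
    refine (integrableOn_congr_fun (g := fun _ => (0 : ℝ)) (fun t ht => h0 t ht)
      measurableSet_Ioi).2 ?_
    exact integrable_zero _ _ _
  have hu : Ioi (0 : ℝ) = Ioc 0 (dur l) ∪ Ioi (dur l) := (Ioc_union_Ioi_eq_Ioi hd).symm
  refine ⟨by rw [hu]; exact h1.union h2, ?_⟩
  rw [hu, setIntegral_union (Ioc_disjoint_Ioi le_rfl) measurableSet_Ioi h1 h2,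
    setIntegral_congr_fun measurableSet_Ioi h0, integral_zero, add_zero,
    ← intervalIntegral.integral_of_le hd, integral_phAt hF hF0 h hd]

/-- The function whose integral is the work of job `i`. -/
noncomputable def Fw (i : ℕ) (y : ℝ × ℕ) : ℝ := if y.2 = i then y.1 else 0

theorem Fw_meas (i : ℕ) : Measurable (Fw i) := by
  unfold Fw
  exact Measurable.ite (measurable_snd (MeasurableSet.of_discrete (s := {i}))) measurable_fst
    measurable_const

theorem Fw_zero (i : ℕ) : Fw i (0, 0) = 0 := by simp [Fw]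

theorem work_ofPh {l : List (ℝ × ℝ × ℕ)} (h : ∀ x ∈ l, 0 ≤ x.1) (i : ℕ) {T : ℝ} (hT : 0 ≤ T) :
    (ofPh l).work i T = IP (Fw i) l T := by
  rw [← integral_phAt (Fw_meas i) (Fw_zero i) h hT]
  rfl

theorem energy_ofPh {α : ℝ} (hα : 1 < α) {l : List (ℝ × ℝ × ℕ)} (h : ∀ x ∈ l, 0 ≤ x.1) :
    IntegrableOn (fun t => (ofPh l).speed t ^ α) (Ioi 0) ∧
      (ofPh l).energy α = IP (fun y => y.1 ^ α) l (dur l) := by
  have hm : Measurable (fun y : ℝ × ℕ => y.1 ^ α) := measurable_fst.pow_const α
  have h0 : (fun y : ℝ × ℕ => y.1 ^ α) (0, 0) = 0 := Real.zero_rpow (by linarith)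
  exact integral_Ioi_phAt hm h0 h

theorem IP_dur {F : ℝ × ℕ → ℝ} {l : List (ℝ × ℝ × ℕ)} (h : ∀ x ∈ l, 0 ≤ x.1) :
    IP F l (dur l) = (l.map (fun x => F x.2 * x.1)).sum := by
  induction l with
  | nil => rfl
  | cons x l ih =>
    have hl := dur_nonneg (fun y hy => h y (List.mem_cons_of_mem _ hy))
    rw [IP, dur_cons, List.map_cons, List.sum_cons, ← ih (fun y hy => h y (List.mem_cons_of_mem _ hy))]
    split_ifs with h1
    · have h4 : dur l = 0 := by linarith
      rw [h4]
      have : IP F l 0 = 0 := by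
        cases l with
        | nil => rfl
        | cons y l => rw [IP, if_pos (h y (by simp)), mul_zero]
      rw [this]
      ring
    · rw [add_sub_cancel_left]

end Pool.Agent.W989.FT
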