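import Pool.Agent.W989.FT.Defs
import Pool.Agent.W989.FT.Ph

/-!
# Efficient algorithms for total flow time under an energy budget
-/

namespace Pool.Agent.W989.FT

open Pool.Agent.NPC

/-- An input: the jobs, the energy budget, and the accuracy `2 ^ (-k)`, where `k` is given in
unary. -/
abbrev Inp := (Jobs × ℚ) × List Unit

/-- Release times are nonnegative, works and the energy budget are positive. -/
def Valid (I : Inp) : Prop := (∀ j ∈ I.1.1, 0 ≤ j.1 ∧ 0 < j.2) ∧ 0 < I.1.2

/-- The schedule is feasible, its energy is at most the budget, and its total flow time is at most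
`2 ^ (-k)` more than the least one. -/
def NearOpt (α : ℝ) (I : Inp) (S : Sched) : Prop :=
  Feasible α I.1.1 S ∧ S.energy α ≤ (I.1.2 : ℝ) ∧
    flow I.1.1 S ≤ opt α I.1.1 (I.1.2 : ℝ) + (1 / 2) ^ I.2.length

/-- A list of phases (duration, speed, job) with rational durations and speeds, as a list with real
ones. -/
noncomputable def realPh (l : List (ℚ × ℚ × ℕ)) : List (ℝ × ℝ × ℕ) :=
  l.map fun x => ((x.1 : ℝ), (x.2.1 : ℝ), x.2.2)

/-- Some polynomial-time algorithm outputs near-optimal schedules, as lists of phases (duration,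
speed, job). -/
def ComputesSchedules (α : ℝ) : Prop :=
  ∃ A : List Bool → List Bool, PolyTime A ∧ ∀ I : Inp, Valid I →
    ∃ out : List (ℚ × ℚ × ℕ), A (bits I) = bits out ∧ (∀ x ∈ out, 0 ≤ x.1) ∧
      NearOpt α I (ofPh (realPh out))

/-- Some polynomial-time algorithm outputs the order in which the jobs are completed in some
near-optimal schedule. -/
def ComputesOrders (α : ℝ) : Prop :=
  ∃ A : List Bool → List Bool, PolyTime A ∧ ∀ I : Inp, Valid I →
    ∃ (out : List ℕ) (S : Sched), A (bits I) = bits out ∧ NearOpt α I S ∧
      out.Perm (List.range I.1.1.length) ∧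
      out.Pairwise (fun i j => completion I.1.1 S i ≤ completion I.1.1 S j)

end Pool.Agent.W989.FT
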