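import Pool.Agent.W989.FT.UB

/-!
# The energies of near-optimal schedules
-/

open MeasureTheory Set

namespace Pool.Agent.W989.FT

theorem cvx (a b c d G z1 z2 : ℝ) (h1 : 0 < z1)
    (H : ∀ z ∈ Ioo z1 z2, 0 ≤ a * (G * ((G - 1) * z ^ (G - 1 - 1))) + 2 * b) :
    ConvexOn ℝ (Icc z1 z2) (fun z => a * z ^ G + b * z ^ 2 + c * z + d) := by
  have hint : interior (Icc z1 z2) = Ioo z1 z2 := interior_Icc
  refine convexOn_of_hasDerivWithinAt2_nonneg (f' := fun z => a * (G * z ^ (G - 1)) + 2 * b * z + c)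
    (f'' := fun z => a * (G * ((G - 1) * z ^ (G - 1 - 1))) + 2 * b) (convex_Icc z1 z2) ?_ ?_ ?_ ?_
  · intro z hz
    have hz0 : z ≠ 0 := by have := hz.1; linarith
    have : ContinuousAt (fun z : ℝ => z ^ G) z := Real.continuousAt_rpow_const z G (Or.inl hz0)
    exact ((((this.const_mul a).add ((continuousAt_id.pow 2).const_mul b)).add
      (continuousAt_id.const_mul c)).add continuousAt_const).continuousWithinAt
  · intro z hz
    rw [hint] at hz
    have hz0 : z ≠ 0 := by have := hz.1; linarith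
    have d1 : HasDerivAt (fun z : ℝ => z ^ G) (G * z ^ (G - 1)) z :=
      Real.hasDerivAt_rpow_const (Or.inl hz0)
    have d2 : HasDerivAt (fun z : ℝ => z ^ 2) (2 * z) z := by
      simpa using hasDerivAt_pow 2 z
    have d3 : HasDerivAt (fun z => a * z ^ G + b * z ^ 2 + c * z + d) _ z :=
      (((d1.const_mul a).add (d2.const_mul b)).add ((hasDerivAt_id z).const_mul c)).add_const d
    exact (d3.congr_deriv (by ring)).hasDerivWithinAt
  · intro z hz
    rw [hint] at hz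
    have hz0 : z ≠ 0 := by have := hz.1; linarith
    have d1 : HasDerivAt (fun z : ℝ => z ^ (G - 1)) ((G - 1) * z ^ (G - 1 - 1)) z :=
      Real.hasDerivAt_rpow_const (Or.inl hz0)
    have d3 : HasDerivAt (fun z => a * (G * z ^ (G - 1)) + 2 * b * z + c) _ z :=
      (((d1.const_mul G).const_mul a).add ((hasDerivAt_id z).const_mul (2 * b))).add_const c
    exact (d3.congr_deriv (by ring)).hasDerivWithinAt
  · intro z hz
    rw [hint] at hz
    exact H z hz

theorem cvx_min {f : ℝ → ℝ} {z1 z2 w z : ℝ} (hf : ConvexOn ℝ (Icc z1 z2) f) (hw : w ∈ Icc z1 z2)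
    (hz : z ∈ Icc z1 z2) (hd : HasDerivAt f 0 w) : f w ≤ f z := by
  rcases lt_trichotomy w z with h | h | h
  · have := hf.le_slope_of_hasDerivAt hw hz h hd
    rw [slope_def_field] at this
    have h3 : 0 < z - w := by linarith
    by_contra hc
    push Not at hc
    have : (f z - f w) / (z - w) < 0 := div_neg_of_neg_of_pos (by linarith) h3
    linarith
  · rw [h]
  · have := hf.slope_le_of_hasDerivAt hz hw h hd
    rw [slope_def_field] at this
    have h3 : 0 < w - z := by linarith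
    by_contra hc
    push Not at hc
    have : 0 < (f w - f z) / (w - z) := div_pos (by linarith) h3
    linarith

/-- Quadratic bounds for `z ^ G - u z` near its minimum. -/
theorem quad {G u w z1 z2 : ℝ} (hG : 1 < G) (h1 : 0 < z1) (hw : w ∈ Icc z1 z2)
    (hu : G * w ^ (G - 1) = u) : ∃ c1 > 0, ∃ c2 > 0, ∀ z ∈ Icc z1 z2,
      c1 * (z - w) ^ 2 ≤ (z ^ G - u * z) - (w ^ G - u * w) ∧
      (z ^ G - u * z) - (w ^ G - u * w) ≤ c2 * (z - w) ^ 2 := by
  have hcont : ContinuousOn (fun z : ℝ => z ^ (G - 1 - 1)) (Icc z1 z2) := by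
    intro z hz
    have hz0 : z ≠ 0 := by have := hz.1; linarith
    exact (Real.continuousAt_rpow_const z _ (Or.inl hz0)).continuousWithinAt
  obtain ⟨a, ha, ha'⟩ := isCompact_Icc.exists_isMinOn ⟨w, hw⟩ hcont
  obtain ⟨b, hb, hb'⟩ := isCompact_Icc.exists_isMaxOn ⟨w, hw⟩ hcont
  have ha0 : 0 < a := lt_of_lt_of_le h1 ha.1
  have hb0 : 0 < b := lt_of_lt_of_le h1 hb.1
  have pa : 0 < a ^ (G - 1 - 1) := Real.rpow_pos_of_pos ha0 _
  have pb : 0 < b ^ (G - 1 - 1) := Real.rpow_pos_of_pos hb0 _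
  have hG1 : 0 < G - 1 := by linarith
  have hw0 : w ≠ 0 := by have := hw.1; linarith
  have d1 : HasDerivAt (fun z : ℝ => z ^ G) u w := by
    rw [← hu]
    exact Real.hasDerivAt_rpow_const (Or.inl hw0)
  have d2 : HasDerivAt (fun z : ℝ => z ^ 2) (2 * w) w := by
    simpa using hasDerivAt_pow 2 w
  refine ⟨G * (G - 1) * a ^ (G - 1 - 1) / 2, by positivity,
    G * (G - 1) * b ^ (G - 1 - 1) / 2, by positivity, fun z hz => ⟨?_, ?_⟩⟩
  · obtain ⟨m, hm⟩ : ∃ m, m = G * (G - 1) * a ^ (G - 1 - 1) / 2 := ⟨_, rfl⟩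
    rw [← hm]
    have c := cvx 1 (-m) (2 * m * w - u) 0 G z1 z2 h1 (fun y hy => by
      have h2 : a ^ (G - 1 - 1) ≤ y ^ (G - 1 - 1) := ha' ⟨hy.1.le, hy.2.le⟩
      have h3 := mul_le_mul_of_nonneg_left h2 (mul_pos (by linarith : (0 : ℝ) < G) hG1).le
      rw [hm]
      linarith)
    have hd : HasDerivAt (fun z => 1 * z ^ G + (-m) * z ^ 2 + (2 * m * w - u) * z + 0) 0 w := by
      have d3 : HasDerivAt (fun z => 1 * z ^ G + (-m) * z ^ 2 + (2 * m * w - u) * z + 0) _ w :=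
        (((d1.const_mul 1).add (d2.const_mul (-m))).add
        ((hasDerivAt_id w).const_mul (2 * m * w - u))).add_const 0
      exact d3.congr_deriv (by ring)
    have := cvx_min c hw hz hd
    nlinarith
  · obtain ⟨m, hm⟩ : ∃ m, m = G * (G - 1) * b ^ (G - 1 - 1) / 2 := ⟨_, rfl⟩
    rw [← hm]
    have c := cvx (-1) m (u - 2 * m * w) 0 G z1 z2 h1 (fun y hy => by
      have h2 : y ^ (G - 1 - 1) ≤ b ^ (G - 1 - 1) := hb' ⟨hy.1.le, hy.2.le⟩
      have h3 := mul_le_mul_of_nonneg_left h2 (mul_pos (by linarith : (0 : ℝ) < G) hG1).le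
      rw [hm]
      linarith)
    have hd : HasDerivAt (fun z => (-1) * z ^ G + m * z ^ 2 + (u - 2 * m * w) * z + 0) 0 w := by
      have d3 : HasDerivAt (fun z => (-1) * z ^ G + m * z ^ 2 + (u - 2 * m * w) * z + 0) _ w :=
        (((d1.const_mul (-1)).add (d2.const_mul m)).add
        ((hasDerivAt_id w).const_mul (u - 2 * m * w))).add_const 0
      exact d3.congr_deriv (by ring)
    have := cvx_min c hw hz hd
    nlinarith

variable {α : ℝ}

/-- Bounds for the critical speed `α / (α - 1) * (2 ^ ((α - 1) / α) - 1)`. -/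
theorem crit_bounds (hα : 1 < α) :
    0.69 < α / (α - 1) * (2 ^ ((α - 1) / α) - 1) ∧ α / (α - 1) * (2 ^ ((α - 1) / α) - 1) ≤ 1 := by
  have h0 : 0 < α - 1 := by linarith
  have h1 : 0 < α := by linarith
  obtain ⟨γ, hγ⟩ : ∃ γ, γ = (α - 1) / α := ⟨_, rfl⟩
  have hγ0 : 0 < γ := by rw [hγ]; positivity
  have hγ1 : γ ≤ 1 := by rw [hγ, div_le_one h1]; linarith
  have e1 : α / (α - 1) = 1 / γ := by rw [hγ]; field_simp
  rw [← hγ, e1]
  constructor
  · have h2 : 1 + γ * Real.log 2 ≤ 2 ^ γ := by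
      rw [Real.rpow_def_of_pos (by norm_num), mul_comm (Real.log 2)]
      linarith [Real.add_one_le_exp (γ * Real.log 2)]
    have h3 := Real.log_two_gt_d9
    rw [div_mul_eq_mul_div, one_mul, lt_div_iff₀ hγ0]
    nlinarith
  · have h2 : (1 + 1 : ℝ) ^ γ ≤ 1 + γ * 1 :=
      rpow_one_add_le_one_add_mul_self (by norm_num) hγ0.le hγ1
    rw [div_mul_eq_mul_div, one_mul, div_le_one hγ0]
    norm_num at h2
    linarith

/-- The ratio of the two values is small. -/
theorem ratio_bound (hα : 1 < α) :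
    (gval α true / gval α false) ^ (1 / (α - 1)) ≤ 7 / 6 := by
  have h0 : 0 < α - 1 := by linarith
  have hα0 : 0 < α := by linarith
  obtain ⟨h1, h2⟩ := crit_bounds hα
  rw [gval_true, gval_false]
  have hθ : (1 : ℝ) < 2 ^ ((α - 1) / α) := Real.one_lt_rpow (by norm_num) (by positivity)
  generalize (2 : ℝ) ^ ((α - 1) / α) = θ at *
  have h3 : (4 * θ + 3) / (4 + 3 * θ) ≤ 1 + (θ - 1) / 7 := by
    rw [div_le_iff₀ (by linarith)]
    nlinarith
  have h4 : (4 * θ + 3) / (4 + 3 * θ) ≤ Real.exp ((θ - 1) / 7) := by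
    linarith [Real.add_one_le_exp ((θ - 1) / 7)]
  have h5 : ((4 * θ + 3) / (4 + 3 * θ)) ^ (1 / (α - 1)) ≤
      (Real.exp ((θ - 1) / 7)) ^ (1 / (α - 1)) :=
    Real.rpow_le_rpow (div_nonneg (by linarith) (by linarith)) h4 (by positivity)
  have h6 : (Real.exp ((θ - 1) / 7)) ^ (1 / (α - 1)) = Real.exp ((θ - 1) / 7 * (1 / (α - 1))) := by
    rw [← Real.exp_mul]
  have h7 : (θ - 1) / 7 * (1 / (α - 1)) ≤ 1 / 7 := by
    have h8 : 1 / (α - 1) ≤ α / (α - 1) := by
      rw [div_le_div_iff_of_pos_right h0]; linarith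
    have h9 : 0 ≤ θ - 1 := by linarith
    have := mul_le_mul_of_nonneg_right h8 h9
    nlinarith
  have h10 : Real.exp (1 / 7) ≤ 7 / 6 := by
    have h11 := Real.add_one_le_exp (-(1 / 7) : ℝ)
    rw [Real.exp_neg] at h11
    have h12 := Real.exp_pos (1 / 7)
    rw [le_inv_comm₀ (by norm_num) h12] at h11
    refine h11.trans (le_of_eq ?_)
    norm_num
  calc _ ≤ _ := h5
    _ = _ := h6
    _ ≤ Real.exp (1 / 7) := Real.exp_le_exp.2 h7
    _ ≤ 7 / 6 := h10

end Pool.Agent.W989.FT
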