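import Pool.Agent.NPC.Classes

/-!
# Speed scaling: total flow time under an energy budget
-/

open MeasureTheory

namespace Pool.Agent.W989.FT

open Pool.Agent.NPC

/-- A schedule: at time `t` the processor runs at speed `speed t` and processes the job with index
`job t` (no job is processed if the speed is `0`). -/
structure Sched where
  /-- the speed at time `t` -/
  speed : ℝ → ℝ
  /-- the job processed at time `t` -/
  job : ℝ → ℕ

/-- The work of job `i` processed until time `T`. -/
noncomputable def Sched.work (S : Sched) (i : ℕ) (T : ℝ) : ℝ :=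
  ∫ t in (0 : ℝ)..T, if S.job t = i then S.speed t else 0

/-- The energy of a schedule for the power function `s ^ α`. -/
noncomputable def Sched.energy (α : ℝ) (S : Sched) : ℝ :=
  ∫ t in Set.Ioi (0 : ℝ), S.speed t ^ α

/-- Jobs: release times and works. -/
abbrev Jobs := List (ℚ × ℚ)

/-- The release time of job `i`. -/
noncomputable def rel (J : Jobs) (i : ℕ) : ℝ := ((J.getD i (0, 1)).1 : ℝ)

/-- The work of job `i`. -/
noncomputable def wrk (J : Jobs) (i : ℕ) : ℝ := ((J.getD i (0, 1)).2 : ℝ)

/-- Feasible schedules: the speed is nonnegative and the energy is finite; only released and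
unfinished jobs are processed; all jobs are finished at some time. -/
structure Feasible (α : ℝ) (J : Jobs) (S : Sched) : Prop where
  meas_speed : Measurable S.speed
  meas_job : Measurable S.job
  nonneg : ∀ t, 0 ≤ S.speed t
  energy_fin : IntegrableOn (fun t => S.speed t ^ α) (Set.Ioi 0)
  ok : ∀ t, 0 ≤ t → S.speed t ≠ 0 →
    S.job t < J.length ∧ rel J (S.job t) ≤ t ∧ S.work (S.job t) t < wrk J (S.job t)
  fin : ∀ i < J.length, ∃ T, 0 ≤ T ∧ wrk J i ≤ S.work i T

/-- The completion time of job `i`. -/
noncomputable def completion (J : Jobs) (S : Sched) (i : ℕ) : ℝ :=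
  sInf {T | 0 ≤ T ∧ wrk J i ≤ S.work i T}

/-- The total flow time. -/
noncomputable def flow (J : Jobs) (S : Sched) : ℝ :=
  ∑ i ∈ Finset.range J.length, (completion J S i - rel J i)

/-- The least total flow time of a schedule with energy at most `E`. -/
noncomputable def opt (α : ℝ) (J : Jobs) (E : ℝ) : ℝ :=
  sInf {F | ∃ S, Feasible α J S ∧ S.energy α ≤ E ∧ flow J S = F}

end Pool.Agent.W989.FT
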