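import Pool.Agent.W989.FT.Defs

/-!
# Lower bound for the flow time
-/

open MeasureTheory Set

namespace Pool.Agent.W989.FT

variable {α : ℝ}

/-- Young's inequality in the form used here. -/
theorem young (hα : 1 < α) {n u : ℝ} (hn : 0 ≤ n) (hu : 0 ≤ u) :
    n ^ ((α - 1) / α) * u ≤ u ^ α / α + n * ((α - 1) / α) := by
  have hpq : α.HolderConjugate (α / (α - 1)) := by
    rw [Real.holderConjugate_iff]
    refine ⟨hα, ?_⟩
    have : α ≠ 0 := by linarith
    have : α - 1 ≠ 0 := by linarith
    field_simp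
    ring
  have h := Real.young_inequality_of_nonneg hu (Real.rpow_nonneg hn ((α - 1) / α)) hpq
  have h2 : (n ^ ((α - 1) / α)) ^ (α / (α - 1)) = n := by
    rw [← Real.rpow_mul hn]
    have : (α - 1) / α * (α / (α - 1)) = 1 := by
      have : α ≠ 0 := by linarith
      have : α - 1 ≠ 0 := by linarith
      field_simp
    rw [this, Real.rpow_one]
  rw [h2] at h
  have h3 : n / (α / (α - 1)) = n * ((α - 1) / α) := by
    rw [div_div_eq_mul_div]
    ring
  rw [h3] at h
  linarith

/-- The pointwise inequality. -/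
theorem pointwise (hα : 1 < α) {σ n u : ℝ} (hσ : 0 < σ) (hn : 0 ≤ n) (hu : 0 ≤ u) :
    α / (α - 1) / σ * (n ^ ((α - 1) / α) * u) ≤ n + u ^ α / ((α - 1) * σ ^ α) := by
  have h := young hα hn (div_nonneg hu hσ.le)
  rw [Real.div_rpow hu hσ.le] at h
  have h1 : 0 < α - 1 := by linarith
  have h2 : 0 < α := by linarith
  have h4 : 0 < σ ^ α := Real.rpow_pos_of_pos hσ α
  have h5 := mul_le_mul_of_nonneg_left h (div_nonneg h2.le h1.le)
  have e1 : α / (α - 1) * (n ^ ((α - 1) / α) * (u / σ)) =
      α / (α - 1) / σ * (n ^ ((α - 1) / α) * u) := by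
    field_simp
  have e2 : α / (α - 1) * (u ^ α / σ ^ α / α + n * ((α - 1) / α)) =
      n + u ^ α / ((α - 1) * σ ^ α) := by
    field_simp
    ring
  rw [e1, e2] at h5
  exact h5

/-- A measurable nonnegative function whose `α`-th power is integrable is integrable on
bounded intervals. -/
theorem intervalIntegrable_of_rpow (hα : 1 < α) {f : ℝ → ℝ} (hf : Measurable f)
    (h0 : ∀ t, 0 ≤ f t) (hi : IntegrableOn (fun t => f t ^ α) (Ioi 0)) {x y : ℝ} (hx : 0 ≤ x)
    (hxy : x ≤ y) : IntervalIntegrable f volume x y ∧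
      IntervalIntegrable (fun t => f t ^ α) volume x y := by
  rw [intervalIntegrable_iff_integrableOn_Ioc_of_le hxy,
    intervalIntegrable_iff_integrableOn_Ioc_of_le hxy]
  have h2 : IntegrableOn (fun t => f t ^ α) (Ioc x y) :=
    hi.mono_set (fun t ht => lt_of_le_of_lt hx ht.1)
  refine ⟨?_, h2⟩
  have h3 : IntegrableOn (fun t => 1 + f t ^ α) (Ioc x y) := by
    refine Integrable.add ?_ h2
    exact integrable_const _
  refine Integrable.mono' h3 hf.aestronglyMeasurable (Filter.Eventually.of_forall fun t => ?_)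
  rw [Real.norm_eq_abs, abs_of_nonneg (h0 t)]
  rcases le_total (f t) 1 with h | h
  · have := Real.rpow_nonneg (h0 t) α
    linarith
  · have : f t ^ (1 : ℝ) ≤ f t ^ α := Real.rpow_le_rpow_of_exponent_le h hα.le
    rw [Real.rpow_one] at this
    linarith

/-- The inequality on an interval. -/
theorem piece (hα : 1 < α) {σ n : ℝ} (hσ : 0 < σ) (hn : 0 ≤ n) {f : ℝ → ℝ} (hf : Measurable f)
    (h0 : ∀ t, 0 ≤ f t) (hi : IntegrableOn (fun t => f t ^ α) (Ioi 0)) {x y : ℝ} (hx : 0 ≤ x)
    (hxy : x ≤ y) :
    α / (α - 1) / σ * (n ^ ((α - 1) / α) * ∫ t in x..y, f t) ≤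
      n * (y - x) + (∫ t in x..y, f t ^ α) / ((α - 1) * σ ^ α) := by
  obtain ⟨i1, i2⟩ := intervalIntegrable_of_rpow hα hf h0 hi hx hxy
  have e1 : α / (α - 1) / σ * (n ^ ((α - 1) / α) * ∫ t in x..y, f t) =
      ∫ t in x..y, α / (α - 1) / σ * (n ^ ((α - 1) / α) * f t) := by
    rw [intervalIntegral.integral_const_mul, intervalIntegral.integral_const_mul]
  have e2 : n * (y - x) + (∫ t in x..y, f t ^ α) / ((α - 1) * σ ^ α) =
      ∫ t in x..y, (n + f t ^ α / ((α - 1) * σ ^ α)) := by
    rw [intervalIntegral.integral_add intervalIntegrable_const (i2.div_const _),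
      intervalIntegral.integral_const, intervalIntegral.integral_div, smul_eq_mul]
    ring
  rw [e1, e2]
  refine intervalIntegral.integral_mono_on hxy ((i1.const_mul _).const_mul _)
    (intervalIntegrable_const.add (i2.div_const _)) fun t _ => ?_
  exact pointwise hα hσ hn (h0 t)

section Sched

variable {J : Jobs} {S : Sched}

/-- The speed devoted to the jobs in a set. -/
noncomputable def Sched.on (S : Sched) (P : ℕ → Prop) [DecidablePred P] (t : ℝ) : ℝ :=
  if P (S.job t) then S.speed t else 0

theorem measurable_on (h : Feasible α J S) (P : ℕ → Prop) [DecidablePred P] :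
    Measurable (S.on P) := by
  refine Measurable.ite ?_ h.meas_speed measurable_const
  exact h.meas_job (MeasurableSet.of_discrete (s := {i | P i}))

theorem on_nonneg (h : Feasible α J S) (P : ℕ → Prop) [DecidablePred P] (t : ℝ) : 0 ≤ S.on P t := by
  unfold Sched.on
  split_ifs
  · exact h.nonneg t
  · exact le_rfl

theorem on_rpow (hα : 1 < α) (P : ℕ → Prop) [DecidablePred P] (t : ℝ) :
    S.on P t ^ α = if P (S.job t) then S.speed t ^ α else 0 := by
  unfold Sched.on
  split_ifs
  · rfl
  · exact Real.zero_rpow (by linarith)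

theorem on_integrable (hα : 1 < α) (h : Feasible α J S) (P : ℕ → Prop) [DecidablePred P] :
    IntegrableOn (fun t => S.on P t ^ α) (Ioi 0) := by
  refine Integrable.mono h.energy_fin ?_ (Filter.Eventually.of_forall fun t => ?_)
  · exact ((measurable_on h P).pow_const α).aestronglyMeasurable
  · rw [Real.norm_eq_abs, Real.norm_eq_abs, abs_of_nonneg (Real.rpow_nonneg (on_nonneg h P t) α),
      abs_of_nonneg (Real.rpow_nonneg (h.nonneg t) α), on_rpow hα]
    split_ifs
    · exact le_rfl
    · exact Real.rpow_nonneg (h.nonneg t) α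

theorem work_eq (i : ℕ) (T : ℝ) : S.work i T = ∫ t in (0 : ℝ)..T, S.on (fun k => k = i) t := rfl

theorem on_ii (hα : 1 < α) (h : Feasible α J S) (P : ℕ → Prop) [DecidablePred P] {x y : ℝ}
    (hx : 0 ≤ x) (hy : 0 ≤ y) : IntervalIntegrable (S.on P) volume x y := by
  have h1 := (intervalIntegrable_of_rpow hα (measurable_on h P) (on_nonneg h P)
    (on_integrable hα h P) le_rfl hx).1
  have h2 := (intervalIntegrable_of_rpow hα (measurable_on h P) (on_nonneg h P)
    (on_integrable hα h P) le_rfl hy).1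
  exact h1.symm.trans h2

theorem work_mono (hα : 1 < α) (h : Feasible α J S) (i : ℕ) {x y : ℝ} (hx : 0 ≤ x) (hxy : x ≤ y) :
    S.work i x ≤ S.work i y := by
  rw [work_eq, work_eq, ← sub_nonneg, intervalIntegral.integral_interval_sub_left
    (on_ii hα h _ le_rfl (hx.trans hxy)) (on_ii hα h _ le_rfl hx)]
  exact intervalIntegral.integral_nonneg hxy fun t _ => on_nonneg h _ t

theorem work_nonneg (h : Feasible α J S) (i : ℕ) {x : ℝ} (hx : 0 ≤ x) : 0 ≤ S.work i x := by
  rw [work_eq]
  exact intervalIntegral.integral_nonneg hx fun t _ => on_nonneg h _ t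

theorem work_continuousOn (hα : 1 < α) (h : Feasible α J S) (i : ℕ) :
    ContinuousOn (S.work i) (Ici 0) := by
  intro x hx
  have hx0 : (0 : ℝ) ≤ x := hx
  have h1 : ContinuousOn (fun y => ∫ t in (0 : ℝ)..y, S.on (fun k => k = i) t) (uIcc 0 (x + 1)) :=
    intervalIntegral.continuousOn_primitive_interval'
      (on_ii hα h _ le_rfl (by linarith)) left_mem_uIcc
  rw [uIcc_of_le (by linarith)] at h1
  have h2 : ContinuousWithinAt (S.work i) (Icc 0 (x + 1)) x := h1 x ⟨hx0, by linarith⟩
  have h3 : Icc 0 (x + 1) ∈ nhdsWithin x (Ici 0) := by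
    have : Ici (0 : ℝ) ∩ Iic (x + 1) = Icc 0 (x + 1) := by
      ext y; simp
    rw [← this]
    exact inter_mem_nhdsWithin _ (Iic_mem_nhds (by linarith))
  exact h2.mono_of_mem_nhdsWithin h3

/-- The completion time is attained. -/
theorem completion_mem (hα : 1 < α) (h : Feasible α J S) {i : ℕ} (hi : i < J.length) :
    0 ≤ completion J S i ∧ wrk J i ≤ S.work i (completion J S i) := by
  have hcl : IsClosed {T | 0 ≤ T ∧ wrk J i ≤ S.work i T} := by
    have : {T | 0 ≤ T ∧ wrk J i ≤ S.work i T} = Ici 0 ∩ S.work i ⁻¹' Ici (wrk J i) := by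
      ext T; simp
    rw [this]
    exact (work_continuousOn hα h i).preimage_isClosed_of_isClosed isClosed_Ici isClosed_Ici
  have hne : {T | 0 ≤ T ∧ wrk J i ≤ S.work i T}.Nonempty := h.fin i hi
  have hbd : BddBelow {T | 0 ≤ T ∧ wrk J i ≤ S.work i T} := ⟨0, fun T hT => hT.1⟩
  exact hcl.csInf_mem hne hbd

theorem completion_le {i : ℕ} {T : ℝ} (hT : 0 ≤ T) (h : wrk J i ≤ S.work i T) :
    completion J S i ≤ T :=
  csInf_le ⟨0, fun _ h => h.1⟩ ⟨hT, h⟩

/-- Before the release time nothing is processed. -/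
theorem on_eq_zero (h : Feasible α J S) {P : ℕ → Prop} [DecidablePred P] {r : ℝ}
    (hr : ∀ i, P i → r ≤ rel J i) {t : ℝ} (ht0 : 0 ≤ t) (ht : t < r) : S.on P t = 0 := by
  unfold Sched.on
  split_ifs with hP
  · by_contra hne
    have := (h.ok t ht0 hne).2.1
    have := hr _ hP
    linarith
  · rfl

theorem int_on_eq_zero (h : Feasible α J S) {P : ℕ → Prop} [DecidablePred P] {r : ℝ}
    (hr : ∀ i, P i → r ≤ rel J i) (hr0 : 0 ≤ r) : ∫ t in (0 : ℝ)..r, S.on P t = 0 := by
  rw [intervalIntegral.integral_of_le hr0, integral_Ioc_eq_integral_Ioo]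
  refine setIntegral_eq_zero_of_forall_eq_zero fun t ht => ?_
  exact on_eq_zero h hr ht.1.le ht.2

theorem rel_le_completion (hα : 1 < α) (h : Feasible α J S) {i : ℕ} (hi : i < J.length)
    (hw : 0 < wrk J i) (hr : 0 ≤ rel J i) : rel J i ≤ completion J S i := by
  by_contra hlt
  push Not at hlt
  obtain ⟨h1, h2⟩ := completion_mem hα h hi
  have h3 := work_mono hα h i h1 hlt.le
  rw [work_eq i (rel J i), int_on_eq_zero h (r := rel J i) (fun k hk => by subst hk; exact le_rfl)
    hr] at h3
  linarith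

/-- Work of two jobs. -/
theorem work_pair (hα : 1 < α) (h : Feasible α J S) {p q : ℕ} (hpq : p ≠ q) {T : ℝ} (hT : 0 ≤ T) :
    ∫ t in (0 : ℝ)..T, S.on (fun k => k = p ∨ k = q) t = S.work p T + S.work q T := by
  rw [work_eq, work_eq, ← intervalIntegral.integral_add (on_ii hα h _ le_rfl hT)
    (on_ii hα h _ le_rfl hT)]
  congr 1
  funext t
  unfold Sched.on
  by_cases h1 : S.job t = p
  · have h2 : S.job t ≠ q := fun h2 => hpq (h1.symm.trans h2)
    simp [h1, hpq]
  · by_cases h2 : S.job t = q
    · simp [h2, Ne.symm hpq]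
    · simp [h1, h2]

/-- The lower bound for two jobs `p` and `q`, released at `R` and `R + a`, if `p` is completed
first. -/
theorem lowerA (hα : 1 < α) (h : Feasible α J S) {p q : ℕ} (hp : p < J.length) (hq : q < J.length)
    (hpq : p ≠ q) {R a w1 w2 σ : ℝ} (hσ : 0 < σ) (hR : 0 ≤ R) (ha : 0 < a) (hw1 : 0 < w1)
    (hw2 : 0 < w2) (rp : rel J p = R) (rq : rel J q = R + a) (wp : wrk J p = w1)
    (wq : wrk J q = w2) (hC : completion J S p ≤ completion J S q) :
    α / (α - 1) / σ * (2 ^ ((α - 1) / α) * w1 + w2) ≤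
      (completion J S p - rel J p) + (completion J S q - rel J q) + a +
      (∫ t in Ioi (0 : ℝ), S.on (fun k => k = p ∨ k = q) t ^ α) / ((α - 1) * σ ^ α) := by
  set f := S.on (fun k => k = p ∨ k = q) with hf
  have f1 : Measurable f := measurable_on h _
  have f2 : ∀ t, 0 ≤ f t := on_nonneg h _
  have f3 : IntegrableOn (fun t => f t ^ α) (Ioi 0) := on_integrable hα h _
  obtain ⟨cp0, cpw⟩ := completion_mem hα h hp
  obtain ⟨cq0, cqw⟩ := completion_mem hα h hq
  have hRp : R ≤ completion J S p := by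
    rw [← rp]; exact rel_le_completion hα h hp (by rw [wp]; exact hw1) (by rw [rp]; exact hR)
  have e1 := piece hα hσ (n := 2) (by norm_num) f1 f2 f3 hR hRp
  have e2 := piece hα hσ (n := 1) (by norm_num) f1 f2 f3 cp0 hC
  rw [Real.one_rpow, one_mul, one_mul] at e2
  have hw0 : ∫ t in (0 : ℝ)..R, f t = 0 := by
    refine int_on_eq_zero h (r := R) (fun k hk => ?_) hR
    rcases hk with rfl | rfl
    · rw [rp]
    · rw [rq]; linarith
  have ii : ∀ {x y : ℝ}, 0 ≤ x → 0 ≤ y → IntervalIntegrable f volume x y :=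
    fun hx hy => on_ii hα h _ hx hy
  have g1 : ∫ t in R..completion J S p, f t =
      S.work p (completion J S p) + S.work q (completion J S p) := by
    rw [← work_pair hα h hpq cp0, ← intervalIntegral.integral_add_adjacent_intervals
      (ii le_rfl hR) (ii hR cp0), hw0, zero_add]
  have g2 : (∫ t in R..completion J S p, f t) + ∫ t in completion J S p..completion J S q, f t =
      S.work p (completion J S q) + S.work q (completion J S q) := by
    rw [← work_pair hα h hpq cq0, intervalIntegral.integral_add_adjacent_intervals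
      (ii hR cp0) (ii cp0 cq0), ← intervalIntegral.integral_add_adjacent_intervals
      (ii le_rfl hR) (ii hR cq0), hw0, zero_add]
  have g3 : (∫ t in R..completion J S p, f t ^ α) +
      (∫ t in completion J S p..completion J S q, f t ^ α) ≤ ∫ t in Ioi (0 : ℝ), f t ^ α := by
    rw [intervalIntegral.integral_add_adjacent_intervals
      (intervalIntegrable_of_rpow hα f1 f2 f3 hR hRp).2
      (intervalIntegrable_of_rpow hα f1 f2 f3 cp0 hC).2,
      intervalIntegral.integral_of_le (hRp.trans hC)]
    exact setIntegral_mono_set f3 (Filter.Eventually.of_forall fun t => Real.rpow_nonneg (f2 t) α)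
      (Filter.Eventually.of_forall fun t ht => lt_of_le_of_lt hR ht.1)
  have m1 := work_mono hα h p cp0 hC
  have m2 := work_nonneg h q cp0
  have hθ : (1 : ℝ) ≤ 2 ^ ((α - 1) / α) :=
    Real.one_le_rpow (by norm_num) (div_nonneg (by linarith) (by linarith))
  have hG : 0 < α / (α - 1) / σ := div_pos (div_pos (by linarith) (by linarith)) hσ
  have hD : 0 < (α - 1) * σ ^ α := mul_pos (by linarith) (Real.rpow_pos_of_pos hσ α)
  have key : 2 ^ ((α - 1) / α) * w1 + w2 ≤
      2 ^ ((α - 1) / α) * (∫ t in R..completion J S p, f t) +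
        ∫ t in completion J S p..completion J S q, f t := by
    rw [wp] at cpw
    rw [wq] at cqw
    nlinarith
  have key2 := mul_le_mul_of_nonneg_left key hG.le
  have g3' := div_le_div_of_nonneg_right g3 hD.le
  rw [add_div] at g3'
  rw [rp, rq]
  nlinarith

/-- The lower bound for two jobs `p` and `q`, released at `R` and `R + a`, if `q` is completed
first. -/
theorem lowerB (hα : 1 < α) (h : Feasible α J S) {p q : ℕ} (hp : p < J.length) (hq : q < J.length)
    (hpq : p ≠ q) {R a w1 w2 σ : ℝ} (hσ : 0 < σ) (hR : 0 ≤ R) (ha : 0 < a) (hw1 : 0 < w1)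
    (hw2 : 0 < w2) (rp : rel J p = R) (rq : rel J q = R + a) (wp : wrk J p = w1)
    (wq : wrk J q = w2) (hC : completion J S q ≤ completion J S p) :
    α / (α - 1) / σ * (w1 + 2 ^ ((α - 1) / α) * w2) ≤
      (completion J S p - rel J p) + (completion J S q - rel J q) +
      (∫ t in Ioi (0 : ℝ), S.on (fun k => k = p ∨ k = q) t ^ α) / ((α - 1) * σ ^ α) := by
  set f := S.on (fun k => k = p ∨ k = q) with hf
  have f1 : Measurable f := measurable_on h _
  have f2 : ∀ t, 0 ≤ f t := on_nonneg h _
  have f3 : IntegrableOn (fun t => f t ^ α) (Ioi 0) := on_integrable hα h _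
  obtain ⟨cp0, cpw⟩ := completion_mem hα h hp
  obtain ⟨cq0, cqw⟩ := completion_mem hα h hq
  have hRa : 0 ≤ R + a := by linarith
  have hRq : R + a ≤ completion J S q := by
    rw [← rq]; exact rel_le_completion hα h hq (by rw [wq]; exact hw2) (by rw [rq]; exact hRa)
  have e0 := piece hα hσ (n := 1) (by norm_num) f1 f2 f3 hR (show R ≤ R + a by linarith)
  have e1 := piece hα hσ (n := 2) (by norm_num) f1 f2 f3 hRa hRq
  have e2 := piece hα hσ (n := 1) (by norm_num) f1 f2 f3 cq0 hC
  rw [Real.one_rpow, one_mul, one_mul] at e2 e0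
  have hw0 : ∫ t in (0 : ℝ)..R, f t = 0 := by
    refine int_on_eq_zero h (r := R) (fun k hk => ?_) hR
    rcases hk with rfl | rfl
    · rw [rp]
    · rw [rq]; linarith
  have ii : ∀ {x y : ℝ}, 0 ≤ x → 0 ≤ y → IntervalIntegrable f volume x y :=
    fun hx hy => on_ii hα h _ hx hy
  have g0 : S.work q (R + a) = 0 := by
    rw [work_eq]
    refine int_on_eq_zero h (r := R + a) (fun k hk => ?_) hRa
    subst hk
    rw [rq]
  have g1 : ∫ t in (R + a)..completion J S q, f t =
      S.work p (completion J S q) + S.work q (completion J S q) - S.work p (R + a) := by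
    have e3 := work_pair hα h hpq cq0
    have e4 := work_pair hα h hpq hRa
    rw [g0, add_zero] at e4
    have e5 := intervalIntegral.integral_add_adjacent_intervals (ii le_rfl hRa) (ii hRa cq0)
    rw [← e3, ← e4, ← e5]
    ring
  have g2 : (∫ t in R..(R + a), f t) + (∫ t in (R + a)..completion J S q, f t) +
      ∫ t in completion J S q..completion J S p, f t =
      S.work p (completion J S p) + S.work q (completion J S p) := by
    rw [← work_pair hα h hpq cp0, intervalIntegral.integral_add_adjacent_intervals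
      (ii hR hRa) (ii hRa cq0), intervalIntegral.integral_add_adjacent_intervals
      (ii hR cq0) (ii cq0 cp0), ← intervalIntegral.integral_add_adjacent_intervals
      (ii le_rfl hR) (ii hR cp0), hw0, zero_add]
  have g3 : (∫ t in R..(R + a), f t ^ α) + (∫ t in (R + a)..completion J S q, f t ^ α) +
      (∫ t in completion J S q..completion J S p, f t ^ α) ≤ ∫ t in Ioi (0 : ℝ), f t ^ α := by
    rw [intervalIntegral.integral_add_adjacent_intervals
      (intervalIntegrable_of_rpow hα f1 f2 f3 hR (show R ≤ R + a by linarith)).2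
      (intervalIntegrable_of_rpow hα f1 f2 f3 hRa hRq).2,
      intervalIntegral.integral_add_adjacent_intervals
      (intervalIntegrable_of_rpow hα f1 f2 f3 hR (show R ≤ completion J S q by linarith)).2
      (intervalIntegrable_of_rpow hα f1 f2 f3 cq0 hC).2,
      intervalIntegral.integral_of_le (by linarith)]
    exact setIntegral_mono_set f3 (Filter.Eventually.of_forall fun t => Real.rpow_nonneg (f2 t) α)
      (Filter.Eventually.of_forall fun t ht => lt_of_le_of_lt hR ht.1)
  have m1 := work_mono hα h q cq0 hC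
  have m2 := work_mono hα h p hRa hRq
  have hθ : (1 : ℝ) ≤ 2 ^ ((α - 1) / α) :=
    Real.one_le_rpow (by norm_num) (div_nonneg (by linarith) (by linarith))
  have hG : 0 < α / (α - 1) / σ := div_pos (div_pos (by linarith) (by linarith)) hσ
  have hD : 0 < (α - 1) * σ ^ α := mul_pos (by linarith) (Real.rpow_pos_of_pos hσ α)
  have key : w1 + 2 ^ ((α - 1) / α) * w2 ≤
      (∫ t in R..(R + a), f t) + 2 ^ ((α - 1) / α) * (∫ t in (R + a)..completion J S q, f t) +
        ∫ t in completion J S q..completion J S p, f t := by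
    rw [wp] at cpw
    rw [wq] at cqw
    nlinarith
  have key2 := mul_le_mul_of_nonneg_left key hG.le
  have g3' := div_le_div_of_nonneg_right g3 hD.le
  rw [add_div, add_div] at g3'
  rw [rp, rq]
  nlinarith

end Sched

end Pool.Agent.W989.FT
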