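import Pool.Agent.W989.FT.LB

/-!
# Lower bound for the flow time: all gadgets
-/

open MeasureTheory Set

namespace Pool.Agent.W989.FT

/-- The jobs of the gadgets of sizes `l`, the first of which is released at time `R`. -/
def gjobs : ℕ → List ℕ → Jobs
  | _, [] => []
  | R, a :: l => ((R : ℚ), ((4 * a : ℕ) : ℚ)) :: (((R + a : ℕ) : ℚ), ((3 * a : ℕ) : ℚ)) ::
      gjobs (R + 14 * a) l

@[simp] theorem length_gjobs (R : ℕ) (l : List ℕ) : (gjobs R l).length = 2 * l.length := by
  induction l generalizing R with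
  | nil => rfl
  | cons a l ih =>
    rw [gjobs]
    simp only [List.length_cons, ih]
    ring

theorem gjobs_spec (R : ℕ) (l : List ℕ) (g : ℕ) (hg : g < l.length) :
    rel (gjobs R l) (2 * g) = ((R + 14 * (l.take g).sum : ℕ) : ℝ) ∧
    rel (gjobs R l) (2 * g + 1) = ((R + 14 * (l.take g).sum : ℕ) : ℝ) + (l.getD g 0 : ℕ) ∧
    wrk (gjobs R l) (2 * g) = 4 * (l.getD g 0 : ℕ) ∧
    wrk (gjobs R l) (2 * g + 1) = 3 * (l.getD g 0 : ℕ) := by
  induction l generalizing R g with
  | nil => simp at hg
  | cons a l ih =>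
    rcases g with _ | g
    · simp [rel, wrk, gjobs]
    · have hg' : g < l.length := by simpa using hg
      obtain ⟨h1, h2, h3, h4⟩ := ih (R + 14 * a) g hg'
      have e1 : 2 * (g + 1) = 2 * g + 1 + 1 := by ring
      have e2 : 2 * (g + 1) + 1 = 2 * g + 1 + 1 + 1 := by ring
      have r1 : ∀ i, rel (gjobs R (a :: l)) (i + 1 + 1) = rel (gjobs (R + 14 * a) l) i := by
        intro i
        simp [rel, gjobs]
      have r2 : ∀ i, wrk (gjobs R (a :: l)) (i + 1 + 1) = wrk (gjobs (R + 14 * a) l) i := by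
        intro i
        simp [wrk, gjobs]
      have e3 : 2 * g + 1 + 1 + 1 = (2 * g + 1) + 1 + 1 := rfl
      rw [e2, e3, e1, r1, r1, r2, r2, h1, h2, h3, h4]
      refine ⟨?_, ?_, ?_, ?_⟩ <;>
        simp only [List.take_succ_cons, List.sum_cons, List.getD_cons_succ] <;> push_cast <;> ring

theorem sum_range_two_mul (f : ℕ → ℝ) (m : ℕ) :
    ∑ i ∈ Finset.range (2 * m), f i = ∑ g ∈ Finset.range m, (f (2 * g) + f (2 * g + 1)) := by
  induction m with
  | zero => simp
  | succ m ih =>
    rw [show 2 * (m + 1) = 2 * m + 1 + 1 by ring, Finset.sum_range_succ, Finset.sum_range_succ,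
      ih, Finset.sum_range_succ]
    ring

theorem sum_pair_le (x : ℝ) (hx : 0 ≤ x) (k m : ℕ) :
    ∑ g ∈ Finset.range m, (if k = 2 * g ∨ k = 2 * g + 1 then x else 0) ≤ x := by
  have h1 : ∀ g ∈ Finset.range m, (if k = 2 * g ∨ k = 2 * g + 1 then x else 0) =
      if g = k / 2 then x else 0 := by
    intro g _
    by_cases h : g = k / 2
    · rw [if_pos h, if_pos (by omega)]
    · rw [if_neg h, if_neg (by omega)]
  rw [Finset.sum_congr rfl h1, Finset.sum_ite_eq' (Finset.range m) (k / 2) (fun _ => x)]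
  split_ifs
  · exact le_rfl
  · exact hx

variable {α : ℝ}

theorem energy_sum (hα : 1 < α) {J : Jobs} {S : Sched} (h : Feasible α J S) (m : ℕ) :
    ∑ g ∈ Finset.range m, (∫ t in Ioi (0 : ℝ), S.on (fun k => k = 2 * g ∨ k = 2 * g + 1) t ^ α) ≤
      S.energy α := by
  unfold Sched.energy
  rw [← integral_finsetSum _ (fun g _ => on_integrable hα h _)]
  refine integral_mono (integrable_finsetSum _ (fun g _ => on_integrable hα h _)) h.energy_fin
    fun t => ?_
  simp only [on_rpow hα]
  exact sum_pair_le _ (Real.rpow_nonneg (h.nonneg t) α) _ _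

/-- Value of a gadget. -/
noncomputable def gval (α : ℝ) (b : Bool) : ℝ :=
  if b then 4 * 2 ^ ((α - 1) / α) + 3 else 4 + 3 * 2 ^ ((α - 1) / α)

/-- The total value for a choice of modes. -/
noncomputable def XX (α : ℝ) (l : List ℕ) (md : ℕ → Bool) : ℝ :=
  ∑ g ∈ Finset.range l.length, (l.getD g 0 : ℝ) * gval α (md g)

/-- The total size of the gadgets in mode `A`. -/
def ss (l : List ℕ) (md : ℕ → Bool) : ℕ :=
  ∑ g ∈ Finset.range l.length, if md g then l.getD g 0 else 0

/-- **The lower bound**, in Lagrangian form. -/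
theorem lower (hα : 1 < α) (l : List ℕ) (hl : ∀ a ∈ l, 0 < a) (R : ℕ) {S : Sched}
    (h : Feasible α (gjobs R l) S) (md : ℕ → Bool)
    (hA : ∀ g < l.length, md g = true →
      completion (gjobs R l) S (2 * g) ≤ completion (gjobs R l) S (2 * g + 1))
    (hB : ∀ g < l.length, md g = false →
      completion (gjobs R l) S (2 * g + 1) ≤ completion (gjobs R l) S (2 * g))
    {σ : ℝ} (hσ : 0 < σ) :
    α / (α - 1) / σ * XX α l md ≤
      flow (gjobs R l) S + ss l md + S.energy α / ((α - 1) * σ ^ α) := by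
  have hD : 0 < (α - 1) * σ ^ α := mul_pos (by linarith) (Real.rpow_pos_of_pos hσ α)
  have h1 := div_le_div_of_nonneg_right (energy_sum hα h l.length) hD.le
  rw [Finset.sum_div] at h1
  have h2 : flow (gjobs R l) S = ∑ g ∈ Finset.range l.length,
      ((completion (gjobs R l) S (2 * g) - rel (gjobs R l) (2 * g)) +
      (completion (gjobs R l) S (2 * g + 1) - rel (gjobs R l) (2 * g + 1))) := by
    unfold flow
    rw [length_gjobs, sum_range_two_mul]
  have h3 : ∀ g ∈ Finset.range l.length,
      α / (α - 1) / σ * ((l.getD g 0 : ℝ) * gval α (md g)) ≤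
      ((completion (gjobs R l) S (2 * g) - rel (gjobs R l) (2 * g)) +
      (completion (gjobs R l) S (2 * g + 1) - rel (gjobs R l) (2 * g + 1))) +
      (((if md g then l.getD g 0 else 0 : ℕ) : ℝ)) +
      (∫ t in Ioi (0 : ℝ), S.on (fun k => k = 2 * g ∨ k = 2 * g + 1) t ^ α) /
        ((α - 1) * σ ^ α) := by
    intro g hg
    rw [Finset.mem_range] at hg
    obtain ⟨s1, s2, s3, s4⟩ := gjobs_spec R l g hg
    have ha : 0 < l.getD g 0 := by
      have : l.getD g 0 ∈ l := by
        rw [List.getD_eq_getElem l 0 hg]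
        exact List.getElem_mem hg
      exact hl _ this
    have ha' : (0 : ℝ) < (l.getD g 0 : ℕ) := by exact_mod_cast ha
    have hp : 2 * g < (gjobs R l).length := by rw [length_gjobs]; omega
    have hq : 2 * g + 1 < (gjobs R l).length := by rw [length_gjobs]; omega
    cases hm : md g with
    | true =>
      have := lowerA hα h hp hq (by omega) hσ (Nat.cast_nonneg _) ha' (by linarith)
        (by linarith) s1 s2 s3 s4 (hA g hg hm)
      simp only [gval, if_true]
      calc α / (α - 1) / σ * ((l.getD g 0 : ℝ) * (4 * 2 ^ ((α - 1) / α) + 3)) =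
          α / (α - 1) / σ * (2 ^ ((α - 1) / α) * (4 * (l.getD g 0 : ℕ)) + 3 * (l.getD g 0 : ℕ)) := by
            ring
        _ ≤ _ := this
    | false =>
      have := lowerB hα h hp hq (by omega) hσ (Nat.cast_nonneg _) ha' (by linarith)
        (by linarith) s1 s2 s3 s4 (hB g hg hm)
      simp only [gval, Bool.false_eq_true, if_false, Nat.cast_zero, add_zero]
      calc α / (α - 1) / σ * ((l.getD g 0 : ℝ) * (4 + 3 * 2 ^ ((α - 1) / α))) =
          α / (α - 1) / σ * (4 * (l.getD g 0 : ℕ) + 2 ^ ((α - 1) / α) * (3 * (l.getD g 0 : ℕ))) := by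
            ring
        _ ≤ _ := this
  have h4 := Finset.sum_le_sum h3
  rw [← Finset.mul_sum] at h4
  simp only [Finset.sum_add_distrib] at h4 h2
  rw [h2]
  unfold XX ss
  push_cast at h4 ⊢
  linarith

theorem gval_true : gval α true = 4 * 2 ^ ((α - 1) / α) + 3 := by simp [gval]
theorem gval_false : gval α false = 4 + 3 * 2 ^ ((α - 1) / α) := by simp [gval]

theorem sum_getD (l : List ℕ) : ∑ g ∈ Finset.range l.length, l.getD g 0 = l.sum := by
  induction l with
  | nil => simp
  | cons a l ih =>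
    rw [List.length_cons, Finset.sum_range_succ', List.sum_cons, ← ih]
    simp [add_comm]

/-- The total value in terms of the total size of the gadgets in mode `A`. -/
theorem XX_eq (l : List ℕ) (md : ℕ → Bool) :
    XX α l md = (4 + 3 * 2 ^ ((α - 1) / α)) * (l.sum : ℝ) +
      (2 ^ ((α - 1) / α) - 1) * (ss l md : ℝ) := by
  rw [← sum_getD]
  unfold XX ss
  push_cast
  rw [Finset.mul_sum, Finset.mul_sum, ← Finset.sum_add_distrib]
  refine Finset.sum_congr rfl fun g _ => ?_
  cases md g
  · simp [gval]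
    ring
  · simp [gval]
    ring

end Pool.Agent.W989.FT
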