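import Pool.Agent.W989.FT.Cal

/-!
# What a near-optimal schedule tells
-/

open MeasureTheory Set

namespace Pool.Agent.W989.FT

variable {α : ℝ}

theorem ss_le (l : List ℕ) (md : ℕ → Bool) : ss l md ≤ l.sum := by
  rw [← sum_getD]
  unfold ss
  refine Finset.sum_le_sum fun g _ => ?_
  split_ifs
  · exact le_rfl
  · exact Nat.zero_le _

theorem X_div (hα : 1 < α) {X E : ℝ} (hX : 0 < X) (hE : 0 < E) :
    X / (E / X) ^ (1 / (α - 1)) = E * (X / E) ^ (α / (α - 1)) ∧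
    X * ((E / X) ^ (1 / (α - 1))) ^ (α - 1) = E := by
  have h0 : 0 < α - 1 := by linarith
  have h1 : 0 < X / E := div_pos hX hE
  have h2 : 0 < E / X := div_pos hE hX
  constructor
  · have e1 : α / (α - 1) = 1 + 1 / (α - 1) := by field_simp; ring
    rw [e1, Real.rpow_add h1, Real.rpow_one]
    have e2 : (E / X) ^ (1 / (α - 1)) = ((X / E) ^ (1 / (α - 1)))⁻¹ := by
      rw [← Real.inv_rpow h1.le, inv_div]
    rw [e2, div_inv_eq_mul]
    field_simp
  · rw [← Real.rpow_mul h2.le, one_div, inv_mul_cancel₀ h0.ne', Real.rpow_one]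
    field_simp

theorem query (hα : 1 < α) : ∃ μ > 0, ∃ ν > 0, ∃ Λ ≥ (1 : ℝ), ∃ δ > 0, ∀ l : List ℕ,
    (∀ a ∈ l, 0 < a) → 0 < l.sum → ∀ E ε : ℝ, 0 < E → ε * E ≤ δ →
    0 ≤ μ * E - ν * l.sum → μ * E - ν * l.sum ≤ l.sum →
    ∀ S, Feasible α (gjobs 0 l) S → S.energy α ≤ E →
    flow (gjobs 0 l) S ≤ opt α (gjobs 0 l) E + ε →
    ∀ md' : ℕ → Bool, (∀ g < l.length, md' g = true →
      completion (gjobs 0 l) S (2 * g) ≤ completion (gjobs 0 l) S (2 * g + 1)) →
    (∀ g < l.length, md' g = false →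
      completion (gjobs 0 l) S (2 * g + 1) ≤ completion (gjobs 0 l) S (2 * g)) →
    ∀ md : ℕ → Bool, ((ss l md' : ℝ) - (μ * E - ν * l.sum)) ^ 2 ≤
      Λ * ((ss l md : ℝ) - (μ * E - ν * l.sum)) ^ 2 + 1 := by
  have h0 : 0 < α - 1 := by linarith
  have hα0 : 0 < α := by linarith
  obtain ⟨cb1, cb2⟩ := crit_bounds hα
  have rb := ratio_bound hα
  rw [gval_true, gval_false] at rb
  have hθ : (1 : ℝ) < 2 ^ ((α - 1) / α) := Real.one_lt_rpow (by norm_num) (by positivity)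
  have hXX := fun l md => XX_eq (α := α) l md
  generalize (2 : ℝ) ^ ((α - 1) / α) = θ at cb1 cb2 rb hθ hXX
  obtain ⟨G, hG⟩ : ∃ G, G = α / (α - 1) := ⟨_, rfl⟩
  rw [← hG] at cb1 cb2
  have hG1 : 1 < G := by rw [hG, lt_div_iff₀ h0]; linarith
  have hθ0 : 0 < θ - 1 := by linarith
  obtain ⟨c, hc⟩ : ∃ c, c = G * (θ - 1) := ⟨_, rfl⟩
  rw [← hc] at cb1 cb2
  have hc0 : 0 < c := by linarith
  obtain ⟨w, hw⟩ : ∃ w, w = (1 / c) ^ (α - 1) := ⟨_, rfl⟩
  have hw0 : 0 < w := by rw [hw]; positivity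
  have hGm : G - 1 = 1 / (α - 1) := by rw [hG]; field_simp; ring
  have hwG : w ^ (G - 1) = 1 / c := by
    rw [hw, hGm, ← Real.rpow_mul (by positivity), mul_one_div_cancel h0.ne', Real.rpow_one]
  have hwr : (1 / w) ^ (1 / (α - 1)) = c := by
    rw [one_div, Real.inv_rpow hw0.le, ← hGm, hwG, one_div, inv_inv]
  obtain ⟨XB, hXB⟩ : ∃ XB, XB = 4 + 3 * θ := ⟨_, rfl⟩
  obtain ⟨XA, hXA⟩ : ∃ XA, XA = 4 * θ + 3 := ⟨_, rfl⟩
  rw [← hXA, ← hXB] at rb
  have hXB0 : 0 < XB := by linarith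
  have hXA0 : 0 < XA := by linarith
  have hAB : XA = XB + (θ - 1) := by linarith
  have hXABl : XB ≤ XA := by linarith
  have hr1 : XB / XA ≤ 1 := by rw [div_le_one hXA0]; exact hXABl
  have hr2 : 1 ≤ XA / XB := by rw [le_div_iff₀ hXB0]; linarith
  have hr3 : 0 < XB / XA := by positivity
  have hwm : w ∈ Icc (w * (XB / XA)) (w * (XA / XB)) :=
    ⟨by nlinarith, by nlinarith⟩
  have hu : G * w ^ (G - 1) = 1 / (θ - 1) := by
    rw [hwG, hc]
    field_simp
  obtain ⟨c1, hc1, c2, hc2, hq⟩ := quad hG1 (by positivity) hwm hu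
  refine ⟨w / (θ - 1), by positivity, XB / (θ - 1), by positivity, c2 / c1 + 1, by
    have : 0 < c2 / c1 := by positivity
    linarith, c1 * (θ - 1) ^ 2, by positivity, ?_⟩
  intro l hl hsum E ε hE hε hs0 hs1 S hS hSE hSf md' hA hB md
  have hA0 : (0 : ℝ) < (l.sum : ℝ) := by exact_mod_cast hsum
  -- the point `w E`
  have k1 : XB * (l.sum : ℝ) ≤ w * E := by
    have h := mul_nonneg hs0 hθ0.le
    have e : (w / (θ - 1) * E - XB / (θ - 1) * (l.sum : ℝ)) * (θ - 1) = w * E - XB * l.sum := by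
      field_simp
    rw [e] at h
    linarith
  have k2 : w * E ≤ XA * (l.sum : ℝ) := by
    have h := mul_le_mul_of_nonneg_right hs1 hθ0.le
    have e : (w / (θ - 1) * E - XB / (θ - 1) * (l.sum : ℝ)) * (θ - 1) = w * E - XB * l.sum := by
      field_simp
    rw [e] at h
    rw [hAB]
    linarith
  -- properties of the values
  have key : ∀ m : ℕ → Bool, XB * (l.sum : ℝ) ≤ XX α l m ∧ XX α l m ≤ XA * (l.sum : ℝ) := by
    intro m
    have h1 : (ss l m : ℝ) ≤ (l.sum : ℝ) := by exact_mod_cast ss_le l m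
    have h2 : (0 : ℝ) ≤ (ss l m : ℝ) := Nat.cast_nonneg _
    rw [hXX, ← hXB, hAB]
    constructor <;> nlinarith
  have hXpos : ∀ m : ℕ → Bool, 0 < XX α l m := fun m =>
    lt_of_lt_of_le (by positivity) (key m).1
  have hz : ∀ m : ℕ → Bool, XX α l m / E ∈ Icc (w * (XB / XA)) (w * (XA / XB)) := by
    intro m
    constructor
    · rw [le_div_iff₀ hE]
      calc w * (XB / XA) * E = (w * E) * (XB / XA) := by ring
        _ ≤ (XA * (l.sum : ℝ)) * (XB / XA) := mul_le_mul_of_nonneg_right k2 hr3.le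
        _ = XB * (l.sum : ℝ) := by field_simp
        _ ≤ _ := (key m).1
    · rw [div_le_iff₀ hE]
      calc XX α l m ≤ XA * (l.sum : ℝ) := (key m).2
        _ = (XB * (l.sum : ℝ)) * (XA / XB) := by field_simp
        _ ≤ (w * E) * (XA / XB) := mul_le_mul_of_nonneg_right k1 (by positivity)
        _ = w * (XA / XB) * E := by ring
  have hσ : ∀ m : ℕ → Bool, 1 / 2 ≤ (E / XX α l m) ^ (1 / (α - 1)) ∧
      (E / XX α l m) ^ (1 / (α - 1)) ≤ 2 := by
    intro m
    obtain ⟨z1, z2⟩ := hz m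
    have hX := hXpos m
    have hr : 0 < (XA / XB) ^ (1 / (α - 1)) := Real.rpow_pos_of_pos (by positivity) _
    constructor
    · have h1 : (1 / w) * (XB / XA) ≤ E / XX α l m := by
        rw [le_div_iff₀ hX]
        rw [div_le_iff₀ hE] at z2
        have h2 := mul_le_mul_of_nonneg_left z2 (show 0 ≤ 1 / w * (XB / XA) by positivity)
        refine h2.trans (le_of_eq ?_)
        field_simp
      have h2 := Real.rpow_le_rpow (by positivity) h1 (show 0 ≤ 1 / (α - 1) by positivity)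
      rw [Real.mul_rpow (by positivity) (by positivity), hwr] at h2
      have h3 : (XB / XA) ^ (1 / (α - 1)) = ((XA / XB) ^ (1 / (α - 1)))⁻¹ := by
        rw [← Real.inv_rpow (by positivity), inv_div]
      rw [h3] at h2
      refine le_trans ?_ h2
      rw [← div_eq_mul_inv, le_div_iff₀ hr]
      linarith
    · have h1 : E / XX α l m ≤ (1 / w) * (XA / XB) := by
        rw [div_le_iff₀ hX]
        rw [le_div_iff₀ hE] at z1
        have h2 := mul_le_mul_of_nonneg_left z1 (show 0 ≤ 1 / w * (XA / XB) by positivity)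
        refine le_trans (le_of_eq ?_) h2
        field_simp
      have h2 := Real.rpow_le_rpow (by positivity) h1 (show 0 ≤ 1 / (α - 1) by positivity)
      rw [Real.mul_rpow (by positivity) (by positivity), hwr] at h2
      refine h2.trans ?_
      calc c * (XA / XB) ^ (1 / (α - 1)) ≤ 1 * (7 / 6) := mul_le_mul cb2 rb hr.le one_pos.le
        _ ≤ 2 := by norm_num
  -- the two bounds
  obtain ⟨e1, e2⟩ := X_div hα (hXpos md) hE
  obtain ⟨e1', e2'⟩ := X_div hα (hXpos md') hE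
  have up := upper hα (hσ md).1 (hσ md).2 l hl md e2
  have lo := lower' hα l hl hS hSE md' hA hB (Real.rpow_pos_of_pos (div_pos hE (hXpos md')) _) e2'
  rw [e1, ← hG] at up
  rw [e1', ← hG] at lo
  have main : E * (XX α l md' / E) ^ G - ss l md' ≤ E * (XX α l md / E) ^ G - ss l md + ε := by
    linarith
  have q1 := (hq _ (hz md')).1
  have q2 := (hq _ (hz md)).2
  have t1 : ∀ m : ℕ → Bool, 1 / (θ - 1) * (XX α l m / E) * E =
      (ss l m : ℝ) + XB / (θ - 1) * (l.sum : ℝ) := by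
    intro m
    rw [hXX, ← hXB]
    field_simp
    ring
  have t2 : ∀ m : ℕ → Bool, E * (XX α l m / E - w) =
      (θ - 1) * ((ss l m : ℝ) - (w / (θ - 1) * E - XB / (θ - 1) * l.sum)) := by
    intro m
    rw [hXX, ← hXB]
    field_simp
    ring
  have m1 := mul_le_mul_of_nonneg_left q1 hE.le
  have m2 := mul_le_mul_of_nonneg_left q2 hE.le
  have s1 := t1 md'
  have s2 := t1 md
  have m3 : E * (c1 * (XX α l md' / E - w) ^ 2) ≤ E * (c2 * (XX α l md / E - w) ^ 2) + ε := by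
    linarith
  have m4 := mul_le_mul_of_nonneg_left m3 hE.le
  have m5 : c1 * (E * (XX α l md' / E - w)) ^ 2 ≤ c2 * (E * (XX α l md / E - w)) ^ 2 + ε * E := by
    calc c1 * (E * (XX α l md' / E - w)) ^ 2 = E * (E * (c1 * (XX α l md' / E - w) ^ 2)) := by ring
      _ ≤ E * (E * (c2 * (XX α l md / E - w) ^ 2) + ε) := m4
      _ = _ := by ring
  rw [t2, t2] at m5
  have hD : 0 < c1 * (θ - 1) ^ 2 := by positivity
  have m6 : c1 * (θ - 1) ^ 2 * ((ss l md' : ℝ) - (w / (θ - 1) * E - XB / (θ - 1) * l.sum)) ^ 2 ≤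
      c1 * (θ - 1) ^ 2 * (c2 / c1 * ((ss l md : ℝ) -
        (w / (θ - 1) * E - XB / (θ - 1) * l.sum)) ^ 2 + 1) := by
    have e3 : c1 * (θ - 1) ^ 2 * (c2 / c1 * ((ss l md : ℝ) -
        (w / (θ - 1) * E - XB / (θ - 1) * l.sum)) ^ 2 + 1) =
        c2 * ((θ - 1) * ((ss l md : ℝ) - (w / (θ - 1) * E - XB / (θ - 1) * l.sum))) ^ 2 +
          c1 * (θ - 1) ^ 2 := by
      field_simp
    rw [e3]
    linarith
  have m7 := le_of_mul_le_mul_left m6 hD
  have := sq_nonneg ((ss l md : ℝ) - (w / (θ - 1) * E - XB / (θ - 1) * l.sum))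
  linarith

end Pool.Agent.W989.FT
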