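import Pool.Agent.W989.FT.Red1
import Pool.Agent.W989.FT.Query

/-!
# Correctness of the reduction
-/

namespace Pool.Agent.W989.FT

open Pool.Agent.NPC Pool.Agent.NPC.R671.SS

theorem ss_append_single (l : List ℕ) (r : ℕ) (md : ℕ → Bool) :
    ss (l ++ [r]) md = ss l md + if md l.length then r else 0 := by
  unfold ss
  rw [List.length_append, List.length_singleton, Finset.sum_range_succ]
  congr 1
  · refine Finset.sum_congr rfl fun g hg => ?_
    rw [Finset.mem_range] at hg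
    rw [List.getD_append _ _ _ _ hg]
  · rw [List.getD_append_right _ _ _ _ le_rfl]
    simp

theorem pows_succ (m : ℕ) : pows (m + 1) = pows m ++ [2 ^ m] := by
  unfold pows
  rw [List.range_succ, List.map_append]
  rfl

theorem length_pows (m : ℕ) : (pows m).length = m := by simp [pows]

theorem sum_pows (m : ℕ) : (pows m).sum + 1 = 2 ^ m := by
  induction m with
  | zero => rfl
  | succ m ih =>
    rw [pows_succ, List.sum_append, List.sum_singleton, pow_succ]
    omega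

theorem ss_pows (m t : ℕ) : ss (pows m) (fun g => t.testBit g) = t % 2 ^ m := by
  induction m with
  | zero => simp [pows, ss, Nat.mod_one]
  | succ m ih =>
    rw [pows_succ, ss_append_single, ih, length_pows, Nat.mod_pow_succ, Nat.testBit_eq_decide_div_mod_eq]
    have h : t / 2 ^ m % 2 = 0 ∨ t / 2 ^ m % 2 = 1 := by omega
    rcases h with h | h <;> simp [h]

theorem kl_spec (n : ℕ) (hn : 0 < n) : (∀ a ∈ kl n, 0 < a) ∧ (kl n).sum = n ∧
    ∀ t ≤ n, ∃ md, ss (kl n) md = t := by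
  obtain ⟨m, hm⟩ : ∃ m, m = n.bits.tail.length := ⟨_, rfl⟩
  have hm' : m + 1 = n.size := by
    have h1 : 0 < n.size := Nat.size_pos.2 hn
    have h2 := Nat.size_eq_bits_len n
    rw [hm, List.length_tail]
    omega
  have h1 : 2 ^ m ≤ n := Nat.lt_size.1 (by omega)
  have h2 : n < 2 ^ (m + 1) := by rw [hm']; exact Nat.lt_size_self n
  have h3 := sum_pows m
  unfold kl
  rw [← hm]
  rw [pow_succ] at h2
  refine ⟨?_, ?_, ?_⟩
  · intro a ha
    rcases List.mem_append.1 ha with h | h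
    · unfold pows at h
      obtain ⟨j, _, rfl⟩ := List.mem_map.1 h
      positivity
    · rw [List.mem_singleton] at h
      omega
  · rw [List.sum_append, List.sum_singleton]
    omega
  · intro t ht
    by_cases h : t < 2 ^ m
    · refine ⟨fun g => if g = m then false else t.testBit g, ?_⟩
      rw [ss_append_single, length_pows]
      simp only [if_true, Bool.false_eq_true, if_false, add_zero]
      have : ss (pows m) (fun g => if g = m then false else t.testBit g) =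
          ss (pows m) (fun g => t.testBit g) := by
        unfold ss
        refine Finset.sum_congr rfl fun g hg => ?_
        rw [Finset.mem_range, length_pows] at hg
        simp only [if_neg (show ¬ g = m by omega)]
      rw [this, ss_pows, Nat.mod_eq_of_lt h]
    · push Not at h
      obtain ⟨r, hr⟩ : ∃ r, r = n - (pows m).sum := ⟨_, rfl⟩
      have hu : t - r < 2 ^ m := by omega
      refine ⟨fun g => if g = m then true else (t - r).testBit g, ?_⟩
      rw [ss_append_single, length_pows]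
      simp only [if_true]
      have : ss (pows m) (fun g => if g = m then true else (t - r).testBit g) =
          ss (pows m) (fun g => (t - r).testBit g) := by
        unfold ss
        refine Finset.sum_congr rfl fun g hg => ?_
        rw [Finset.mem_range, length_pows] at hg
        simp only [if_neg (show ¬ g = m by omega)]
      rw [this, ss_pows, Nat.mod_eq_of_lt hu, ← hr]
      omega

theorem ss_map_mul (N : ℕ) (l : List ℕ) (md : ℕ → Bool) :
    ss (l.map fun a => N * a) md = N * ss l md := by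
  unfold ss
  rw [List.length_map, Finset.mul_sum]
  refine Finset.sum_congr rfl fun g hg => ?_
  rw [Finset.mem_range] at hg
  rw [List.getD_eq_getElem _ _ (by simpa using hg), List.getD_eq_getElem _ _ hg, List.getElem_map]
  split_ifs <;> simp

theorem subsetSum_iff_ss (l : List ℕ) (t : ℕ) : SubsetSum (l, t) ↔ ∃ md, ss l md = t := by
  unfold SubsetSum
  constructor
  · rintro ⟨s, hs, rfl⟩
    simp only at hs
    induction hs with
    | slnil => exact ⟨fun _ => false, rfl⟩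
    | cons a _ ih =>
      obtain ⟨md, h⟩ := ih
      refine ⟨fun g => if g = 0 then false else md (g - 1), ?_⟩
      rw [ss_cons]
      simp [h]
    | cons_cons a _ ih =>
      obtain ⟨md, h⟩ := ih
      refine ⟨fun g => if g = 0 then true else md (g - 1), ?_⟩
      rw [ss_cons]
      simp [h]
  · rintro ⟨md, rfl⟩
    induction l generalizing md with
    | nil => exact ⟨[], List.Sublist.refl _, rfl⟩
    | cons a l ih =>
      obtain ⟨s, h1, h2⟩ := ih (fun g => md (g + 1))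
      simp only at h1 h2
      rw [ss_cons]
      by_cases h : md 0
      · exact ⟨a :: s, h1.cons_cons a, by simp [h, h2]⟩
      · exact ⟨s, h1.cons a, by simp [h, h2]⟩

theorem sum_map_mul (N : ℕ) (l : List ℕ) : (l.map fun a => N * a).sum = N * l.sum := by
  induction l with
  | nil => simp
  | cons a l ih => rw [List.map_cons, List.sum_cons, ih, List.sum_cons, mul_add]

/-- The property of the answers to the queries. -/
def Oracle (α : ℝ) (f : (Jobs × ℚ) × List Unit → List Bool) : Prop :=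
  ∀ l : List ℕ, (∀ a ∈ l, 0 < a) → ∀ E : ℕ, 0 < E → ∀ k : List Unit,
    ∃ S, Feasible α (gjobs 0 l) S ∧ S.energy α ≤ E ∧
      flow (gjobs 0 l) S ≤ opt α (gjobs 0 l) E + (1 / 2) ^ k.length ∧
      ∀ g < l.length, ((f ((gjobs 0 l, (E : ℚ)), k)).getD g false = true →
        completion (gjobs 0 l) S (2 * g) ≤ completion (gjobs 0 l) S (2 * g + 1)) ∧
        ((f ((gjobs 0 l, (E : ℚ)), k)).getD g false = false →
        completion (gjobs 0 l) S (2 * g + 1) ≤ completion (gjobs 0 l) S (2 * g))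

theorem sq_bound {x y : ℝ} (hy : 0 ≤ y) (h : x ^ 2 ≤ y ^ 2) : |x| ≤ y :=
  abs_le_of_sq_le_sq h hy

theorem num_b {μ ν N A e0 e1 : ℝ} (hA : 1 ≤ A) (a1 : ν * N ≤ μ * e0) (a2 : μ * e0 ≤ ν * N + μ)
    (a3 : μ * e1 ≤ (1 + ν) * N) (a4 : (1 + ν) * N ≤ μ * e1 + μ) :
    0 ≤ μ * (e0 * A) - ν * (N * A) ∧ μ * (e0 * A) - ν * (N * A) ≤ μ * A ∧
    μ * (e1 * A) - ν * (N * A) ≤ N * A ∧ N * A - μ * A ≤ μ * (e1 * A) - ν * (N * A) := by
  have h0 : 0 ≤ A := by linarith
  have e1' : μ * (e0 * A) - ν * (N * A) = (μ * e0 - ν * N) * A := by ring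
  have e2' : μ * (e1 * A) - ν * (N * A) = (μ * e1 - ν * N) * A := by ring
  rw [e1', e2']
  refine ⟨mul_nonneg (by linarith) h0, mul_le_mul_of_nonneg_right (by linarith) h0,
    mul_le_mul_of_nonneg_right (by linarith) h0, ?_⟩
  rw [← sub_mul]
  exact mul_le_mul_of_nonneg_right (by linarith) h0

theorem interp {μ ν L n σ0 σ1 s0 s1 t x0 x1 Rn : ℝ} (hL0 : 0 < L)
    (hσ0 : σ0 = μ * x0 - ν * n) (hσ1 : σ1 = μ * x1 - ν * n)
    (c0 : |s0 - σ0| ≤ L) (c1 : |s1 - σ1| ≤ L) (hs0 : 0 ≤ s0) (hs0n : s0 ≤ n) (hs1 : 0 ≤ s1)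
    (hs1n : s1 ≤ n) (ht : 0 ≤ t) (htn : t ≤ n) (hd : n / 4 ≤ s1 - s0) (hn : 0 < n)
    (hRn : Rn = x0 * s1 + x1 * t - (x0 * t + x1 * s0)) :
    |(μ * (Rn / (s1 - s0)) - ν * n) - t| ≤ 8 * L := by
  have hdpos : 0 < s1 - s0 := by linarith
  have e : (μ * (Rn / (s1 - s0)) - ν * n) - t =
      ((σ0 - s0) * (s1 - t) + (σ1 - s1) * (t - s0)) / (s1 - s0) := by
    rw [hRn, hσ0, hσ1]
    field_simp
    ring
  rw [e, abs_div, abs_of_pos hdpos, div_le_iff₀ hdpos]
  have m1 : |(σ0 - s0) * (s1 - t)| ≤ L * n := by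
    rw [abs_mul]
    refine mul_le_mul ?_ ?_ (abs_nonneg _) hL0.le
    · rw [abs_sub_comm]; exact c0
    · rw [abs_le]; constructor <;> linarith
  have m2 : |(σ1 - s1) * (t - s0)| ≤ L * n := by
    rw [abs_mul]
    refine mul_le_mul ?_ ?_ (abs_nonneg _) hL0.le
    · rw [abs_sub_comm]; exact c1
    · rw [abs_le]; constructor <;> linarith
  refine (abs_add_le _ _).trans ?_
  have h3 : L * (n / 4) ≤ L * (s1 - s0) := mul_le_mul_of_nonneg_left hd hL0.le
  linarith

theorem last_step {N T u : ℕ} {x K D : ℝ} (hK : |((N * u : ℕ) : ℝ) - x| ≤ K)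
    (hD : |x - ((N * T : ℕ) : ℝ)| ≤ D) (hN : K + D < N) : u = T := by
  rw [abs_le] at hK hD
  push_cast at hK hD
  have hN0 : (0 : ℝ) ≤ N := Nat.cast_nonneg N
  have h8 : (u : ℝ) < T + 1 := by
    by_contra hc
    push Not at hc
    have := mul_le_mul_of_nonneg_left hc hN0
    rw [mul_add, mul_one] at this
    linarith
  have h9 : (T : ℝ) < u + 1 := by
    by_contra hc
    push Not at hc
    have := mul_le_mul_of_nonneg_left hc hN0
    rw [mul_add, mul_one] at this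
    linarith
  have h10 : u < T + 1 := by exact_mod_cast h8
  have h11 : T < u + 1 := by exact_mod_cast h9
  omega

theorem close_sq {Λ D x y z : ℝ} (hΛ : 1 ≤ Λ) (hD : 0 < D) (h : x ^ 2 ≤ Λ * y ^ 2 + 1)
    (hy : |y| ≤ D) (hz : z = Λ * D + 1) : |x| ≤ z := by
  have hΛD : 0 < Λ * D := by positivity
  refine sq_bound (by rw [hz]; linarith) (h.trans ?_)
  have h2 : y ^ 2 ≤ D ^ 2 := by
    rw [← sq_abs]
    exact pow_le_pow_left₀ (abs_nonneg _) hy 2
  have h4 : Λ * y ^ 2 ≤ Λ * D ^ 2 := mul_le_mul_of_nonneg_left h2 (by linarith)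
  have h5 : Λ * D ^ 2 ≤ Λ * (Λ * D ^ 2) :=
    mul_le_mul_of_nonneg_left (le_mul_of_one_le_left (by positivity) hΛ) (by linarith)
  rw [hz]
  have e : (Λ * D + 1) ^ 2 = Λ * (Λ * D ^ 2) + 2 * (Λ * D) + 1 := by ring
  rw [e]
  linarith

theorem dec_correct {α : ℝ} (hα : 1 < α) : ∃ N e0 e1 k0 : ℕ, ∀ f, Oracle α f →
    ∀ x : List ℕ × ℕ, Nice x → (SubsetSum x ↔ dec f N e0 e1 k0 x = true) := by
  obtain ⟨μ, hμ, ν, hν, Λ, hΛ, δ, hδ, Q⟩ := query hα
  obtain ⟨L, hL⟩ : ∃ L, L = Λ + 1 := ⟨_, rfl⟩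
  obtain ⟨D, hD⟩ : ∃ D, D = 8 * L + μ := ⟨_, rfl⟩
  have hL0 : 0 < L := by linarith
  have hD0 : 0 < D := by linarith
  have hΛD : 0 < Λ * D := by positivity
  obtain ⟨N, hN⟩ := exists_nat_gt (8 * L + 4 * μ + Λ * D + 1 + D)
  have hN0 : (0 : ℝ) < N := by linarith
  have hN0' : 0 < N := by exact_mod_cast hN0
  obtain ⟨e0, he0⟩ : ∃ e0, e0 = ⌈ν / μ * N⌉₊ := ⟨_, rfl⟩
  obtain ⟨e1, he1⟩ : ∃ e1, e1 = ⌊(1 + ν) / μ * N⌋₊ := ⟨_, rfl⟩
  have a1 : ν * N ≤ μ * e0 := by
    have h1 : ν / μ * N ≤ e0 := by rw [he0]; exact Nat.le_ceil _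
    have h2 := mul_le_mul_of_nonneg_left h1 hμ.le
    have e : μ * (ν / μ * N) = ν * N := by field_simp
    rwa [e] at h2
  have a2 : μ * e0 ≤ ν * N + μ := by
    have h1 : (e0 : ℝ) < ν / μ * N + 1 := by rw [he0]; exact Nat.ceil_lt_add_one (by positivity)
    have h2 := mul_le_mul_of_nonneg_left h1.le hμ.le
    have e : μ * (ν / μ * N + 1) = ν * N + μ := by field_simp
    rwa [e] at h2
  have a3 : μ * e1 ≤ (1 + ν) * N := by
    have h1 : (e1 : ℝ) ≤ (1 + ν) / μ * N := by rw [he1]; exact Nat.floor_le (by positivity)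
    have h2 := mul_le_mul_of_nonneg_left h1 hμ.le
    have e : μ * ((1 + ν) / μ * N) = (1 + ν) * N := by field_simp
    rwa [e] at h2
  have a4 : (1 + ν) * N ≤ μ * e1 + μ := by
    have h1 : (1 + ν) / μ * N < (e1 : ℝ) + 1 := by rw [he1]; exact Nat.lt_floor_add_one _
    have h2 := mul_le_mul_of_nonneg_left h1.le hμ.le
    have e : μ * ((1 + ν) / μ * N) = (1 + ν) * N := by field_simp
    have e' : μ * ((e1 : ℝ) + 1) = μ * e1 + μ := by ring
    rwa [e, e'] at h2
  obtain ⟨k0, hk0⟩ := exists_pow_lt_of_lt_one (show 0 < δ * μ / (1 + ν) by positivity)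
    (show (1 / 2 : ℝ) < 1 by norm_num)
  refine ⟨N, e0, e1, k0, ?_⟩
  intro f hf x hx
  obtain ⟨l, T⟩ := x
  obtain ⟨hx1, hx2⟩ := hx
  simp only at hx1 hx2
  have hlne : l ≠ [] := by rintro rfl; simp at hx2
  have hT1 : 1 ≤ T := by
    obtain ⟨a, ha⟩ := List.exists_mem_of_ne_nil l hlne
    have := hx1 a ha
    omega
  obtain ⟨A, hA⟩ : ∃ A, A = l.sum := ⟨_, rfl⟩
  rw [← hA] at hx2
  have hA1 : 1 ≤ A := by omega
  have hA1' : (1 : ℝ) ≤ A := by exact_mod_cast hA1
  have hTA : (T : ℝ) + 1 ≤ A := by exact_mod_cast hx2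
  have hT1' : (1 : ℝ) ≤ T := by exact_mod_cast hT1
  obtain ⟨n, hn⟩ : ∃ n, n = N * A := ⟨_, rfl⟩
  have hn0 : 0 < n := by rw [hn]; positivity
  have hn' : (n : ℝ) = N * A := by rw [hn]; push_cast; ring
  have hn0' : (0 : ℝ) < n := by exact_mod_cast hn0
  -- the property of a query
  have QQ : ∀ l' : List ℕ, (∀ a ∈ l', 0 < a) → l'.sum = n → ∀ E : ℕ,
      0 ≤ μ * (E : ℝ) - ν * n → μ * (E : ℝ) - ν * n ≤ n → ∀ md : ℕ → Bool,
      ((qry f l' E (acc k0 n) : ℝ) - (μ * E - ν * n)) ^ 2 ≤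
        Λ * ((ss l' md : ℝ) - (μ * E - ν * n)) ^ 2 + 1 := by
    intro l' hl' hs E hE0 hE1 md
    have hEpos : (0 : ℝ) < E := by
      by_contra hc
      push Not at hc
      have h1 : (E : ℝ) = 0 := le_antisymm hc (Nat.cast_nonneg _)
      rw [h1, mul_zero, zero_sub] at hE0
      have := mul_pos hν hn0'
      linarith
    have hEpos' : 0 < E := by exact_mod_cast hEpos
    obtain ⟨S, hS1, hS2, hS3, hS4⟩ := hf l' hl' E hEpos' (acc k0 n)
    have hlen : (acc k0 n).length = n.size + k0 := by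
      unfold acc
      rw [List.length_append, List.length_map, List.length_replicate, Nat.size_eq_bits_len]
    have heps : (1 / 2 : ℝ) ^ (acc k0 n).length * E ≤ δ := by
      rw [hlen, pow_add]
      have h1 : (n : ℝ) ≤ 2 ^ n.size := by exact_mod_cast (Nat.lt_size_self n).le
      have h2 : (1 / 2 : ℝ) ^ n.size * n ≤ 1 := by
        rw [one_div, inv_pow, inv_mul_le_iff₀ (by positivity), mul_one]
        exact h1
      have h3 : (E : ℝ) ≤ (1 + ν) / μ * n := by
        rw [div_mul_eq_mul_div, le_div_iff₀ hμ]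
        linarith
      have h4 : (0 : ℝ) < (1 / 2) ^ k0 := by positivity
      have h5 : (0 : ℝ) < (1 / 2) ^ n.size := by positivity
      calc (1 / 2 : ℝ) ^ n.size * (1 / 2) ^ k0 * E
          ≤ (1 / 2 : ℝ) ^ n.size * (1 / 2) ^ k0 * ((1 + ν) / μ * n) :=
            mul_le_mul_of_nonneg_left h3 (by positivity)
        _ = ((1 / 2 : ℝ) ^ n.size * n) * ((1 / 2) ^ k0 * ((1 + ν) / μ)) := by ring
        _ ≤ 1 * ((1 / 2) ^ k0 * ((1 + ν) / μ)) := mul_le_mul_of_nonneg_right h2 (by positivity)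
        _ ≤ 1 * (δ * μ / (1 + ν) * ((1 + ν) / μ)) := by
            refine mul_le_mul_of_nonneg_left (mul_le_mul_of_nonneg_right hk0.le (by positivity))
              (by norm_num)
        _ = δ := by field_simp
    have h := Q l' hl' (by omega) E _ hEpos heps (by rw [hs]; exact hE0) (by rw [hs]; exact hE1)
      S hS1 hS2 hS3 (fun g => (f ((gjobs 0 l', (E : ℚ)), acc k0 n)).getD g false)
      (fun g hg => (hS4 g hg).1) (fun g hg => (hS4 g hg).2) md
    rw [hs] at h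
    unfold qry
    rw [sv_eq, gj_eq]
    exact h
  -- calibration
  obtain ⟨K1, K2, K3⟩ := kl_spec n hn0
  have cal : ∀ E : ℕ, 0 ≤ μ * (E : ℝ) - ν * n → μ * (E : ℝ) - ν * n ≤ n →
      |(qry f (kl n) E (acc k0 n) : ℝ) - (μ * E - ν * n)| ≤ L := by
    intro E hE0 hE1
    obtain ⟨t, ht⟩ : ∃ t, t = ⌊μ * (E : ℝ) - ν * n⌋₊ := ⟨_, rfl⟩
    have t1 : (t : ℝ) ≤ μ * (E : ℝ) - ν * n := by rw [ht]; exact Nat.floor_le hE0
    have t2 : μ * (E : ℝ) - ν * n < t + 1 := by rw [ht]; exact Nat.lt_floor_add_one _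
    have t3 : t ≤ n := by
      have : (t : ℝ) ≤ n := t1.trans hE1
      exact_mod_cast this
    obtain ⟨md, hmd⟩ := K3 t t3
    have h := QQ (kl n) K1 K2 E hE0 hE1 md
    rw [hmd] at h
    refine close_sq (D := 1) hΛ one_pos h ?_ (by rw [hL, mul_one])
    rw [abs_le]
    constructor <;> linarith
  obtain ⟨s0, hs0⟩ : ∃ s0, s0 = qry f (kl n) (e0 * A) (acc k0 n) := ⟨_, rfl⟩
  obtain ⟨s1, hs1⟩ : ∃ s1, s1 = qry f (kl n) (e1 * A) (acc k0 n) := ⟨_, rfl⟩
  obtain ⟨b0l, b0u, b1u, b1l⟩ := num_b hA1' a1 a2 a3 a4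
  have hc0 : ((e0 * A : ℕ) : ℝ) = e0 * A := by push_cast; ring
  have hc1 : ((e1 * A : ℕ) : ℝ) = e1 * A := by push_cast; ring
  rw [← hn', ← hc0] at b0l b0u
  rw [← hn', ← hc1] at b1u b1l
  have hmuA : 4 * (μ * A) ≤ n := by
    rw [hn', ← mul_assoc]
    exact mul_le_mul_of_nonneg_right (by linarith) (by linarith)
  have h8L : 8 * L ≤ n := by
    rw [hn']
    calc 8 * L ≤ (N : ℝ) * 1 := by linarith
      _ ≤ N * A := mul_le_mul_of_nonneg_left hA1' hN0.le
  have c0 := cal (e0 * A) b0l (by linarith)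
  have c1 := cal (e1 * A) (by linarith) b1u
  rw [← hs0] at c0
  rw [← hs1] at c1
  obtain ⟨σ0, hσ0⟩ : ∃ σ0, σ0 = μ * ((e0 * A : ℕ) : ℝ) - ν * n := ⟨_, rfl⟩
  obtain ⟨σ1, hσ1⟩ : ∃ σ1, σ1 = μ * ((e1 * A : ℕ) : ℝ) - ν * n := ⟨_, rfl⟩
  rw [← hσ0] at c0 b0l b0u
  rw [← hσ1] at c1 b1l b1u
  have hs0n : (s0 : ℝ) ≤ n := by
    have : s0 ≤ (kl n).sum := by rw [hs0]; unfold qry; rw [sv_eq]; exact ss_le _ _
    rw [K2] at this
    exact_mod_cast this
  have hs1n : (s1 : ℝ) ≤ n := by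
    have : s1 ≤ (kl n).sum := by rw [hs1]; unfold qry; rw [sv_eq]; exact ss_le _ _
    rw [K2] at this
    exact_mod_cast this
  have hs0p : (0 : ℝ) ≤ s0 := Nat.cast_nonneg _
  have hs1p : (0 : ℝ) ≤ s1 := Nat.cast_nonneg _
  have hdiff : (n : ℝ) / 4 ≤ (s1 : ℝ) - s0 := by
    have := abs_le.1 c0
    have := abs_le.1 c1
    linarith
  have hdpos : (0 : ℝ) < (s1 : ℝ) - s0 := by linarith
  have hdn : s0 < s1 := by
    have : (s0 : ℝ) < s1 := by linarith
    exact_mod_cast this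
  -- the interpolation
  obtain ⟨t, ht⟩ : ∃ t, t = N * T := ⟨_, rfl⟩
  have ht' : (t : ℝ) = N * T := by rw [ht]; push_cast; ring
  have htN : (N : ℝ) ≤ t := by
    rw [ht']
    exact le_mul_of_one_le_right hN0.le hT1'
  have htn2 : (t : ℝ) + N ≤ n := by
    rw [ht', hn']
    have := mul_le_mul_of_nonneg_left hTA hN0.le
    rwa [mul_add, mul_one] at this
  have htn : (t : ℝ) ≤ n := by linarith
  obtain ⟨Rn, hRn⟩ : ∃ Rn : ℝ, Rn = (e0 * A : ℕ) * s1 + (e1 * A : ℕ) * t -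
    ((e0 * A : ℕ) * t + (e1 * A : ℕ) * s0) := ⟨_, rfl⟩
  have key := interp hL0 hσ0 hσ1 c0 c1 hs0p hs0n hs1p hs1n (Nat.cast_nonneg t) htn hdiff hn0' hRn
  rw [abs_le] at key
  have hRpos : 0 < Rn / (s1 - s0) := by
    by_contra hc
    push Not at hc
    have h1 : μ * (Rn / (s1 - s0)) ≤ 0 := mul_nonpos_of_nonneg_of_nonpos hμ.le hc
    have h2 := mul_pos hν hn0'
    linarith
  have hRn0 : 0 < Rn := by
    have := mul_pos hRpos hdpos
    rwa [div_mul_cancel₀ _ hdpos.ne'] at this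
  obtain ⟨E, hE⟩ : ∃ E, E = ET e0 e1 A t s0 s1 := ⟨_, rfl⟩
  have hcast : (((e0 * A * s1 + e1 * A * t - (e0 * A * t + e1 * A * s0) : ℕ)) : ℝ) = Rn := by
    rw [Nat.cast_sub]
    · rw [hRn]; push_cast; ring
    · have : ((e0 * A * t + e1 * A * s0 : ℕ) : ℝ) ≤ ((e0 * A * s1 + e1 * A * t : ℕ) : ℝ) := by
        rw [hRn] at hRn0
        push_cast at hRn0 ⊢
        linarith
      exact_mod_cast this
  have hcast2 : ((s1 - s0 : ℕ) : ℝ) = (s1 : ℝ) - s0 := Nat.cast_sub hdn.le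
  have E1 : (E : ℝ) ≤ Rn / (s1 - s0) := by
    rw [hE, ET, ← hcast2, ← hcast]
    exact Nat.cast_div_le
  have E2 : Rn / (s1 - s0) ≤ E + 1 := by
    rw [hE, ET, div_le_iff₀ hdpos, ← hcast2, ← hcast]
    have h1 : 0 < s1 - s0 := by omega
    have h2 := Nat.lt_div_mul_add (a := e0 * A * s1 + e1 * A * t - (e0 * A * t + e1 * A * s0)) h1
    have h3 : (e0 * A * s1 + e1 * A * t - (e0 * A * t + e1 * A * s0)) ≤
        ((e0 * A * s1 + e1 * A * t - (e0 * A * t + e1 * A * s0)) / (s1 - s0) + 1) * (s1 - s0) := by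
      rw [add_mul, one_mul]
      exact h2.le
    exact_mod_cast h3
  have hF : |(μ * (E : ℝ) - ν * n) - t| ≤ D := by
    have p1 := mul_le_mul_of_nonneg_left E1 hμ.le
    have p2 := mul_le_mul_of_nonneg_left E2 hμ.le
    rw [mul_add, mul_one] at p2
    rw [hD, abs_le]
    constructor <;> linarith
  have hF' := abs_le.1 hF
  -- the last query
  have hlast := QQ (l.map fun a => N * a) (fun a ha => by
      obtain ⟨b, hb, rfl⟩ := List.mem_map.1 ha
      exact Nat.mul_pos hN0' (hx1 b hb).1) (by rw [sum_map_mul, ← hA, hn]) E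
    (by linarith) (by linarith)
  have hdec : dec f N e0 e1 k0 (l, T) = decide (qry f (l.map fun a => N * a) E (acc k0 n) = t) := by
    unfold dec
    simp only [← hA, ← hn, ← ht, ← hs0, ← hs1, ← hE]
  rw [hdec, decide_eq_true_eq, subsetSum_iff_ss]
  have hq : qry f (l.map fun a => N * a) E (acc k0 n) = N * ss l
      (fun g => (f ((gj (l.map fun a => N * a), (E : ℚ)), acc k0 n)).getD g false) := by
    unfold qry
    rw [sv_eq, ss_map_mul]
  constructor
  · rintro ⟨md, hmd⟩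
    have h := hlast md
    rw [ss_map_mul, hmd, ← ht] at h
    have h3 := close_sq hΛ hD0 h (by rw [abs_sub_comm]; exact hF) rfl
    rw [hq] at h3 ⊢
    rw [ht] at hF
    rw [last_step h3 hF (by linarith), ht]
  · intro h
    rw [hq, ht] at h
    exact ⟨_, Nat.eq_of_mul_eq_mul_left hN0' h⟩

end Pool.Agent.W989.FT
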