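import Pool.Agent.W989.FT.Alg
import Pool.Agent.W989.FT.Red2

/-!
# Hardness of total flow time under an energy budget
-/

namespace Pool.Agent.W989.FT

open Pool.Agent.NPC Pool.Agent.NPC.R671.SS

theorem poly_bits' {α β : Type} [TEnc α] [TEnc β] {f : β → α} (hf : NPC.Poly f) :
    NPC.Poly (fun a => bits (f a)) := by
  have h1 : PC (bits : β → List Bool) (bits : List Bool → List Bool) (fun b => bits (f b)) := by
    refine (PC.comp (g := fun x : List Bool => x) (f := fun b => bits (f b)) (eb := fun x => x)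
      PC.rawIn ?_)
    exact hf
  exact h1

/-- The modes of the gadgets, from the order of the completions. -/
def mo (I : Inp) (out : List ℕ) : List Bool :=
  (List.range I.1.1.length).map fun g =>
    decide ((out.filter (fun x => decide (x = 2 * g) || decide (x = 2 * g + 1))).head? = some (2 * g))

/-- The phase does positive work for one of the two jobs of gadget `g`. -/
def PP (g : ℕ) (x : ℚ × ℚ × ℕ) : Bool := decide (0 < x.1) && decide (0 < x.2.1) &&
      (decide (x.2.2 = 2 * g) || decide (x.2.2 = 2 * g + 1))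

theorem poly_PP {α : Type} [TEnc α] {g : α → ℕ} {x : α → ℚ × ℚ × ℕ} (hg : NPC.Poly g)
    (hx : NPC.Poly x) : NPC.Poly (fun a => PP (g a) (x a)) := by
  unfold PP
  have g1 : NPC.Poly (fun a => (x a).2.2) := NPC.Poly.snd (NPC.Poly.snd hx)
  have g2 : NPC.Poly (fun a => 2 * g a) := NPC.Poly.mul (NPC.Poly.const 2) hg
  have g3 : NPC.Poly (fun a => 2 * g a + 1) := NPC.Poly.succ g2
  exact NPC.Poly.and (NPC.Poly.and (poly_pos_rat (NPC.Poly.fst hx))
    (poly_pos_rat (NPC.Poly.fst (NPC.Poly.snd hx))))
    (NPC.Poly.or (NPC.Poly.decide_eq g1 g2) (NPC.Poly.decide_eq g1 g3))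

/-- The last phase that does positive work for one of the two jobs of gadget `g` works for
the second one. -/
def QQ (g : ℕ) (out : List (ℚ × ℚ × ℕ)) : Bool :=
  ((out.reverse.filter (PP g)).head?).any (fun x => decide (x.2.2 = 2 * g + 1))

theorem poly_QQ {α : Type} [TEnc α] {g : α → ℕ} {o : α → List (ℚ × ℚ × ℕ)} (hg : NPC.Poly g)
    (ho : NPC.Poly o) : NPC.Poly (fun a => QQ (g a) (o a)) := by
  unfold QQ
  have h1 : NPC.Poly (fun a => (o a).reverse) := NPC.Poly.reverse ho
  have h2 : NPC.Poly (fun a => (o a).reverse.filter (PP (g a))) :=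
    NPC.Poly.filter (p := fun a x => PP (g a) x) h1
      (poly_PP (hg.comp (NPC.Poly.fst NPC.Poly.id)) (NPC.Poly.snd NPC.Poly.id))
  have h3 := NPC.Poly.head? h2
  have h4 : NPC.Poly (fun p : α × (ℚ × ℚ × ℕ) => decide (p.2.2.2 = 2 * g p.1 + 1)) := by
    refine NPC.Poly.decide_eq (NPC.Poly.snd (NPC.Poly.snd (NPC.Poly.snd NPC.Poly.id)))
      (NPC.Poly.succ (NPC.Poly.mul (NPC.Poly.const 2) (hg.comp (NPC.Poly.fst NPC.Poly.id))))
  exact NPC.Poly.optAny_fp (h := fun a x => decide (x.2.2 = 2 * g a + 1)) h3 h4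

/-- The modes of the gadgets, from a schedule. -/
def ms (I : Inp) (out : List (ℚ × ℚ × ℕ)) : List Bool :=
  (List.range I.1.1.length).map fun g => QQ g out

theorem poly_mo : NPC.Poly (fun p : Inp × List ℕ => mo p.1 p.2) := by
  unfold mo
  have h0 : NPC.Poly (fun p : Inp × List ℕ => p.1.1.1) := by
    exact NPC.Poly.fst (NPC.Poly.fst (NPC.Poly.fst NPC.Poly.id))
  refine NPC.Poly.map (F := fun (p : Inp × List ℕ) g =>
    decide ((p.2.filter (fun x => decide (x = 2 * g) || decide (x = 2 * g + 1))).head? =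
      some (2 * g))) (NPC.Poly.range_length h0) ?_
  fun_prop

theorem poly_ms : NPC.Poly (fun p : Inp × List (ℚ × ℚ × ℕ) => ms p.1 p.2) := by
  unfold ms
  have h0 : NPC.Poly (fun p : Inp × List (ℚ × ℚ × ℕ) => p.1.1.1) :=
    NPC.Poly.fst (NPC.Poly.fst (NPC.Poly.fst NPC.Poly.id))
  exact NPC.Poly.map (F := fun (p : Inp × List (ℚ × ℚ × ℕ)) g => QQ g p.2)
    (NPC.Poly.range_length h0)
    (poly_QQ (NPC.Poly.snd NPC.Poly.id) (NPC.Poly.snd (NPC.Poly.fst NPC.Poly.id)))

theorem valid_gjobs (l : List ℕ) (hl : ∀ a ∈ l, 0 < a) (R : ℕ) : ∀ j ∈ gjobs R l, 0 ≤ j.1 ∧ 0 < j.2 := by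
  induction l generalizing R with
  | nil => intro j hj; simp [gjobs] at hj
  | cons a l ih =>
    intro j hj
    have ha : (0 : ℚ) < a := by exact_mod_cast hl a (List.mem_cons_self ..)
    rw [gjobs] at hj
    rcases List.mem_cons.1 hj with rfl | hj
    · refine ⟨by positivity, ?_⟩
      push_cast
      positivity
    · rcases List.mem_cons.1 hj with rfl | hj
      · refine ⟨by positivity, ?_⟩
        push_cast
        positivity
      · exact ih (fun b hb => hl b (List.mem_cons_of_mem _ hb)) _ j hj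

theorem getD_map_range (n g : ℕ) (hg : g < n) (F : ℕ → Bool) :
    ((List.range n).map F).getD g false = F g := by
  rw [List.getD_eq_getElem _ _ (by simpa using hg), List.getElem_map, List.getElem_range]

/-- Orders give the answers to the queries. -/
theorem oracle_of_orders {α : ℝ} (h : ComputesOrders α) :
    ∃ f : Inp → List Bool, NPC.Poly f ∧ Oracle α f := by
  obtain ⟨A, hA, hI⟩ := h
  have hA' : NPC.Poly A := PIso.poly_iff.2 hA
  refine ⟨fun I => (unbits (List ℕ) (A (bits I))).elim [] (fun out => mo I out), ?_, ?_⟩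
  · refine NPC.Poly.optElim (h := fun I out => mo I out) ?_ (NPC.Poly.const _) poly_mo
    exact poly_unbits.comp (hA'.comp (poly_bits' NPC.Poly.id))
  · intro l hl E hE k
    obtain ⟨out, S, h1, ⟨h2, h3, h4⟩, h5, h6⟩ := hI ((gjobs 0 l, (E : ℚ)), k)
      ⟨valid_gjobs l hl 0, by simpa using hE⟩
    refine ⟨S, h2, by simpa using h3, by simpa using h4, ?_⟩
    intro g hg
    have hlen : g < (gjobs 0 l).length := by rw [length_gjobs]; omega
    simp only [h1, unbits_bits, Option.elim]
    rw [mo, getD_map_range _ _ hlen]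
    obtain ⟨F, hF⟩ : ∃ F, F = out.filter (fun x => decide (x = 2 * g) || decide (x = 2 * g + 1)) :=
      ⟨_, rfl⟩
    rw [← hF]
    have hp : 2 * g ∈ F := by
      rw [hF, List.mem_filter]
      refine ⟨h5.mem_iff.2 ?_, by simp⟩
      rw [List.mem_range, length_gjobs]
      omega
    have hq : 2 * g + 1 ∈ F := by
      rw [hF, List.mem_filter]
      refine ⟨h5.mem_iff.2 ?_, by simp⟩
      rw [List.mem_range, length_gjobs]
      omega
    have hpw : F.Pairwise (fun i j => completion (gjobs 0 l) S i ≤ completion (gjobs 0 l) S j) := by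
      rw [hF]
      exact h6.filter _
    have hmem : ∀ x ∈ F, x = 2 * g ∨ x = 2 * g + 1 := by
      intro x hx
      rw [hF, List.mem_filter] at hx
      simpa using hx.2
    clear hF
    cases F with
    | nil => simp at hp
    | cons y F =>
      rw [List.head?_cons]
      rw [List.pairwise_cons] at hpw
      rcases hmem y (List.mem_cons_self ..) with hy | hy
      · subst hy
        refine ⟨fun _ => ?_, fun h => by simp at h⟩
        rcases List.mem_cons.1 hq with h | h
        · omega
        · exact hpw.1 _ h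
      · subst hy
        refine ⟨fun h => by simp at h, fun _ => ?_⟩
        rcases List.mem_cons.1 hp with h | h
        · omega
        · exact hpw.1 _ h

theorem IP_eq_zero {F : ℝ × ℕ → ℝ} {L : List (ℝ × ℝ × ℕ)} (h : ∀ x ∈ L, 0 ≤ x.1 ∧
    (x.1 = 0 ∨ F x.2 = 0)) {T : ℝ} (hT : 0 ≤ T) : IP F L T = 0 := by
  induction L generalizing T with
  | nil => rfl
  | cons x L ih =>
    obtain ⟨h1, h2⟩ := h x (List.mem_cons_self ..)
    rw [IP]
    split_ifs with hc
    · rcases h2 with h2 | h2
      · have : T = 0 := by linarith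
        rw [this, mul_zero]
      · rw [h2, zero_mul]
    · rw [ih (fun y hy => h y (List.mem_cons_of_mem _ hy)) (by linarith)]
      rcases h2 with h2 | h2 <;> rw [h2] <;> ring

/-- The job with the last active phase is completed last. -/
theorem last_phase {α : ℝ} (hα : 1 < α) {J : Jobs} {pre post : List (ℝ × ℝ × ℕ)} {x : ℝ × ℝ × ℕ}
    (h0 : ∀ y ∈ pre ++ x :: post, 0 ≤ y.1) (hS : Feasible α J (ofPh (pre ++ x :: post)))
    {p q : ℕ} (hp : p < J.length) (hq : q < J.length) (hpq : p ≠ q) (hx : 0 < x.1) (hx' : 0 < x.2.1)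
    (hxq : x.2.2 = q) (hpost : ∀ y ∈ post, y.1 = 0 ∨ y.2.1 = 0 ∨ y.2.2 ≠ p) :
    completion J (ofPh (pre ++ x :: post)) p ≤ completion J (ofPh (pre ++ x :: post)) q := by
  have h0p : ∀ y ∈ pre, 0 ≤ y.1 := fun y hy => h0 y (List.mem_append_left _ hy)
  have h0x : ∀ y ∈ x :: post, 0 ≤ y.1 := fun y hy => h0 y (List.mem_append_right _ hy)
  have hd := dur_nonneg h0p
  obtain ⟨S, hSd⟩ : ∃ S, S = ofPh (pre ++ x :: post) := ⟨_, rfl⟩
  rw [← hSd] at hS ⊢
  -- `p` is completed at the time `dur pre`
  have hw : ∀ T, dur pre ≤ T → S.work p T = S.work p (dur pre) := by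
    intro T hT
    rw [hSd, work_ofPh h0 p (hd.trans hT), work_ofPh h0 p hd, IP_append h0p h0x (hd.trans hT),
      IP_append h0p h0x hd, if_pos le_rfl]
    split_ifs with h
    · rw [le_antisymm h hT]
    · rw [IP_eq_zero (F := Fw p) (L := x :: post) ?_ (by linarith), add_zero]
      intro y hy
      refine ⟨h0x y hy, ?_⟩
      rcases List.mem_cons.1 hy with rfl | hy
      · right
        rw [Fw, if_neg (by rw [hxq]; exact fun h => hpq h.symm)]
      · rcases hpost y hy with h | h | h
        · exact Or.inl h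
        · right; rw [Fw]; split_ifs <;> [exact h; rfl]
        · right; rw [Fw, if_neg h]
  have cp : completion J S p ≤ dur pre := by
    obtain ⟨T, hT0, hT⟩ := hS.fin p hp
    refine completion_le hd ?_
    rcases le_total (dur pre) T with h | h
    · rw [← hw T h]; exact hT
    · exact hT.trans (work_mono hα hS p hT0 h)
  -- `q` is not completed at this time
  have hat : (S.speed (dur pre), S.job (dur pre)) = (x.2.1, x.2.2) := by
    rw [hSd]
    change phAt (pre ++ x :: post) (dur pre) = (x.2.1, x.2.2)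
    rw [phAt_append h0p hd, if_neg (lt_irrefl _), sub_self, phAt, if_pos hx]
  rw [Prod.mk.injEq] at hat
  have hok := (hS.ok (dur pre) hd (by rw [hat.1]; exact hx'.ne')).2.2
  rw [hat.2, hxq] at hok
  obtain ⟨cq0, cq⟩ := completion_mem hα hS hq
  by_contra hc
  push Not at hc
  have := work_mono hα hS q cq0 (hc.le.trans cp)
  linarith

theorem find_reverse {β : Type} {l : List β} {P : β → Bool} {x : β} (h : l.reverse.find? P = some x) :
    P x = true ∧ ∃ pre post, l = pre ++ x :: post ∧ ∀ y ∈ post, P y = false := by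
  rw [List.find?_eq_some_iff_append] at h
  obtain ⟨h1, as, bs, h2, h3⟩ := h
  refine ⟨h1, bs.reverse, as.reverse, ?_, ?_⟩
  · have := congrArg List.reverse h2
    rw [List.reverse_reverse] at this
    rw [this]
    simp
  · intro y hy
    have := h3 y (List.mem_reverse.1 hy)
    simpa using this

/-- Schedules give the answers to the queries. -/
theorem oracle_of_schedules {α : ℝ} (hα : 1 < α) (h : ComputesSchedules α) :
    ∃ f : Inp → List Bool, NPC.Poly f ∧ Oracle α f := by
  obtain ⟨A, hA, hI⟩ := h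
  have hA' : NPC.Poly A := PIso.poly_iff.2 hA
  refine ⟨fun I => (unbits (List (ℚ × ℚ × ℕ)) (A (bits I))).elim [] (fun out => ms I out), ?_, ?_⟩
  · refine NPC.Poly.optElim (h := fun I out => ms I out) ?_ (NPC.Poly.const _) poly_ms
    exact poly_unbits.comp (hA'.comp (poly_bits' NPC.Poly.id))
  · intro l hl E hE k
    obtain ⟨out, h1, h0, ⟨h2, h3, h4⟩⟩ := hI ((gjobs 0 l, (E : ℚ)), k)
      ⟨valid_gjobs l hl 0, by simpa using hE⟩
    refine ⟨_, h2, by simpa using h3, by simpa using h4, ?_⟩
    intro g hg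
    have hlen : g < (gjobs 0 l).length := by rw [length_gjobs]; omega
    have hp : 2 * g < (gjobs 0 l).length := by rw [length_gjobs]; omega
    have hq : 2 * g + 1 < (gjobs 0 l).length := by rw [length_gjobs]; omega
    simp only [h1, unbits_bits, Option.elim]
    rw [ms, getD_map_range _ _ hlen, QQ, List.head?_filter]
    obtain ⟨P, hP⟩ : ∃ P : ℚ × ℚ × ℕ → Bool, P = PP g := ⟨_, rfl⟩
    rw [← hP]
    have hr0 : ∀ y ∈ realPh out, 0 ≤ y.1 := by
      intro y hy
      unfold realPh at hy
      obtain ⟨z, hz, rfl⟩ := List.mem_map.1 hy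
      simp only
      exact_mod_cast h0 z hz
    have hsp : ∀ y ∈ realPh out, y.1 = 0 ∨ 0 ≤ y.2.1 := by
      intro y hy
      by_cases hy0 : y.1 = 0
      · exact Or.inl hy0
      · right
        obtain ⟨pre, post, hs⟩ := List.append_of_mem hy
        have hpos : 0 < y.1 := lt_of_le_of_ne (hr0 y hy) (Ne.symm hy0)
        rw [hs] at hr0 h2
        have h0p : ∀ z ∈ pre, 0 ≤ z.1 := fun z hz => hr0 z (List.mem_append_left _ hz)
        have e : phAt (pre ++ y :: post) (dur pre) = (y.2.1, y.2.2) := by
          rw [phAt_append h0p (dur_nonneg h0p), if_neg (lt_irrefl _), sub_self, phAt, if_pos hpos]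
        have := h2.nonneg (dur pre)
        have e2 : (ofPh (pre ++ y :: post)).speed (dur pre) = y.2.1 := congrArg Prod.fst e
        rw [e2] at this
        exact this
    -- inactive phases
    have hin : ∀ z ∈ out, P z = false → ∀ i, i = 2 * g ∨ i = 2 * g + 1 →
        ((z.1 : ℝ) = 0 ∨ (z.2.1 : ℝ) = 0 ∨ z.2.2 ≠ i) := by
      intro z hz hPz i hi
      by_contra hc
      push Not at hc
      obtain ⟨c1, c2, c3⟩ := hc
      have m : ((z.1 : ℝ), (z.2.1 : ℝ), z.2.2) ∈ realPh out :=
        List.mem_map.2 ⟨z, hz, rfl⟩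
      have d1 : 0 < z.1 := by
        have h5 := h0 z hz
        have h6 : z.1 ≠ 0 := by exact_mod_cast c1
        exact lt_of_le_of_ne h5 (Ne.symm h6)
      have d2 : 0 < z.2.1 := by
        rcases hsp _ m with h | h
        · exact absurd h c1
        · have h' : (0 : ℝ) ≤ (z.2.1 : ℝ) := h
          have h5 : (0 : ℚ) ≤ z.2.1 := by exact_mod_cast h'
          have h6 : z.2.1 ≠ 0 := by exact_mod_cast c2
          exact lt_of_le_of_ne h5 (Ne.symm h6)
      rw [hP] at hPz
      rcases hi with hi | hi <;> subst hi <;> simp [PP, d1, d2, c3] at hPz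
    cases hf : out.reverse.find? P with
    | none =>
      exfalso
      rw [List.find?_eq_none] at hf
      obtain ⟨T, hT0, hT⟩ := h2.fin (2 * g) hp
      rw [work_ofPh hr0 _ hT0, IP_eq_zero (F := Fw (2 * g)) ?_ hT0] at hT
      · have hw := (gjobs_spec 0 l g hg).2.2.1
        have ha : 0 < l.getD g 0 := by
          have : l.getD g 0 ∈ l := by
            rw [List.getD_eq_getElem l 0 hg]
            exact List.getElem_mem hg
          exact hl _ this
        have ha' : (0 : ℝ) < (l.getD g 0 : ℕ) := by exact_mod_cast ha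
        rw [hw] at hT
        linarith
      · intro y hy
        refine ⟨hr0 y hy, ?_⟩
        unfold realPh at hy
        obtain ⟨z, hz, rfl⟩ := List.mem_map.1 hy
        have hPz : P z = false := by
          have := hf z (List.mem_reverse.2 hz)
          simpa using this
        rcases hin z hz hPz (2 * g) (Or.inl rfl) with h | h | h
        · exact Or.inl h
        · right
          simp only [Fw, h]
          split_ifs <;> rfl
        · right
          simp only [Fw, if_neg h]
    | some x =>
      obtain ⟨hPx, pre, post, hs, hpost⟩ := find_reverse hf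
      have hrs : realPh out = realPh pre ++ ((x.1 : ℝ), (x.2.1 : ℝ), x.2.2) :: realPh post := by
        rw [hs]; simp [realPh]
      rw [hP] at hPx
      simp only [PP, Bool.and_eq_true, decide_eq_true_eq, Bool.or_eq_true] at hPx
      obtain ⟨⟨x1, x2⟩, x3⟩ := hPx
      have x1' : (0 : ℝ) < (x.1 : ℝ) := by exact_mod_cast x1
      have x2' : (0 : ℝ) < (x.2.1 : ℝ) := by exact_mod_cast x2
      have hpost' : ∀ i, i = 2 * g ∨ i = 2 * g + 1 → ∀ y ∈ realPh post,
          y.1 = 0 ∨ y.2.1 = 0 ∨ y.2.2 ≠ i := by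
        intro i hi y hy
        unfold realPh at hy
        obtain ⟨z, hz, rfl⟩ := List.mem_map.1 hy
        exact hin z (by rw [hs]; simp [hz]) (hpost z hz) i hi
      rw [hrs] at h2 hr0
      rw [hrs]
      simp only [Option.any_some, decide_eq_true_eq, decide_eq_false_iff_not]
      rcases x3 with x3 | x3
      · refine ⟨fun h => by omega, fun _ => ?_⟩
        exact last_phase hα hr0 h2 hq hp (by omega) x1' x2' x3 (hpost' _ (Or.inr rfl))
      · refine ⟨fun _ => ?_, fun h => absurd x3 h⟩
        exact last_phase hα hr0 h2 hp hq (by omega) x1' x2' x3 (hpost' _ (Or.inl rfl))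

theorem main {α : ℝ} (hα : 1 < α) (h : ComputesSchedules α ∨ ComputesOrders α) :
    ∀ L : Set (List Bool), InNP L → InP L := by
  obtain ⟨f, hf, ho⟩ : ∃ f : Inp → List Bool, NPC.Poly f ∧ Oracle α f := by
    rcases h with h | h
    · exact oracle_of_schedules hα h
    · exact oracle_of_orders h
  obtain ⟨N, e0, e1, k0, hc⟩ := dec_correct hα
  exact HardPr.collapse hardPr_SubsetSum (poly_dec hf N e0 e1 k0) (fun x hx => hc f ho x hx)

end Pool.Agent.W989.FT
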