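import Pool.Agent.W989.FT.LB2
import Pool.Agent.H671R2.SubsetSum
import Pool.Agent.H550R2.Iso.Raw
import Pool.Agent.ER.Rat

/-!
# The functions of the reduction are computable in polynomial time
-/

namespace Pool.Agent.W989.FT

open Pool.Agent.NPC

section General

variable {α β : Type} [TEnc α] [TEnc β]

theorem poly_natCast_rat {f : α → ℕ} (hf : NPC.Poly f) : NPC.Poly (fun a => ((f a : ℕ) : ℚ)) :=
  NPC.Poly.of_toT ((NPC.Poly.toT' (NPC.Poly.pair (NPC.Poly.natCast_int hf) (NPC.Poly.const 1))).congr fun a => by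
    change toT (((f a : ℕ) : ℤ), 1) = toT ((((f a : ℕ) : ℚ)).num, (((f a : ℕ) : ℚ)).den)
    rw [Rat.num_natCast, Rat.den_natCast])

theorem poly_pos_rat {f : α → ℚ} (hf : NPC.Poly f) : NPC.Poly (fun a => decide (0 < f a)) := by
  have h1 : NPC.Poly (fun a => ((f a).num, (f a).den)) := NPC.Poly.of_toT (NPC.Poly.toT' hf)
  have h2 : NPC.Poly (fun a => (decide ((f a).num < 0), (f a).num.natAbs)) :=
    NPC.Poly.of_toT (NPC.Poly.toT' (NPC.Poly.fst h1))
  refine (NPC.Poly.and (NPC.Poly.not (NPC.Poly.fst h2)) (NPC.Poly.decide_lt (NPC.Poly.const 0) (NPC.Poly.snd h2))).congr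
    fun a => ?_
  have h3 : (0 < f a) ↔ 0 < (f a).num := Rat.num_pos.symm
  rw [Bool.eq_iff_iff]
  simp only [Bool.and_eq_true, Bool.not_eq_true', decide_eq_false_iff_not, decide_eq_true_eq]
  rw [h3]
  omega

theorem take_eq_filter {γ : Type} (l : List γ) (k n : ℕ) :
    ((l.zipIdx k).filter (fun y => decide (y.2 < k + n))).map (fun y => y.1) = l.take n := by
  induction l generalizing k n with
  | nil => simp
  | cons a l ih =>
    rw [List.zipIdx_cons]
    rcases n with _ | n
    · have : ((a, k) :: l.zipIdx (k + 1)).filter (fun y => decide (y.2 < k + 0)) = [] := by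
        rw [List.filter_eq_nil_iff]
        intro y hy
        rcases List.mem_cons.1 hy with rfl | hy
        · simp
        · have := List.le_snd_of_mem_zipIdx hy
          simp
          omega
      rw [this]
      simp
    · rw [List.filter_cons_of_pos (by simp), List.map_cons, List.take_succ_cons,
        show k + (n + 1) = k + 1 + n by ring, ih]

theorem poly_takeSum {l : α → List ℕ} {n : α → ℕ} (hl : NPC.Poly l) (hn : NPC.Poly n) :
    NPC.Poly (fun a => ((l a).take (n a)).sum) := by
  have h1 : NPC.Poly (fun a => (((l a).zipIdx.filter (fun y => decide (y.2 < n a))).map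
      (fun y => y.1)).sum) := by
    fun_prop
  refine h1.congr fun a => ?_
  have := take_eq_filter (l a) 0 (n a)
  rw [zero_add] at this
  rw [this]

end General

/-- the jobs of the gadgets, without recursion -/
def gj (l : List ℕ) : Jobs :=
  l.zipIdx.flatMap fun x =>
    [(((14 * (l.take x.2).sum : ℕ) : ℚ), ((4 * x.1 : ℕ) : ℚ)),
      (((14 * (l.take x.2).sum + x.1 : ℕ) : ℚ), ((3 * x.1 : ℕ) : ℚ))]

theorem gj_eq_aux (l : List ℕ) (R : ℕ) :
    gjobs R l = l.zipIdx.flatMap fun x =>
      [(((R + 14 * (l.take x.2).sum : ℕ) : ℚ), ((4 * x.1 : ℕ) : ℚ)),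
        (((R + 14 * (l.take x.2).sum + x.1 : ℕ) : ℚ), ((3 * x.1 : ℕ) : ℚ))] := by
  induction l generalizing R with
  | nil => rfl
  | cons a l ih =>
    rw [gjobs, ih, List.zipIdx_cons', List.flatMap_cons, List.flatMap_map]
    simp only [List.take_zero, List.sum_nil, mul_zero, add_zero]
    simp only [List.cons_append, List.nil_append]
    congr 2
    refine congrArg (fun F => List.flatMap F l.zipIdx) ?_
    funext x
    have : R + 14 * a + 14 * (l.take x.2).sum = R + 14 * (a + (l.take x.2).sum) := by ring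
    simp only [Prod.map_fst, Prod.map_snd, id_eq, List.take_succ_cons, List.sum_cons, this]

theorem gj_eq (l : List ℕ) : gj l = gjobs 0 l := by
  rw [gj_eq_aux]
  simp only [gj, zero_add]

theorem poly_gj : NPC.Poly gj := by
  unfold gj
  have h1 : NPC.Poly (fun p : List ℕ × (ℕ × ℕ) => 14 * (p.1.take p.2.2).sum) :=
    NPC.Poly.mul (NPC.Poly.const 14) (poly_takeSum (NPC.Poly.fst NPC.Poly.id) (NPC.Poly.snd (NPC.Poly.snd NPC.Poly.id)))
  have h2 : NPC.Poly (fun p : List ℕ × (ℕ × ℕ) => p.2.1) := NPC.Poly.fst (NPC.Poly.snd NPC.Poly.id)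
  refine NPC.Poly.flatMap (l := fun l : List ℕ => l.zipIdx) (F := fun l x =>
    [(((14 * (l.take x.2).sum : ℕ) : ℚ), ((4 * x.1 : ℕ) : ℚ)),
      (((14 * (l.take x.2).sum + x.1 : ℕ) : ℚ), ((3 * x.1 : ℕ) : ℚ))]) (by fun_prop) ?_
  refine NPC.Poly.cons (NPC.Poly.pair (poly_natCast_rat h1) (poly_natCast_rat ((NPC.Poly.const 4).mul h2)))
    (NPC.Poly.cons (NPC.Poly.pair (poly_natCast_rat (h1.add h2))
      (poly_natCast_rat ((NPC.Poly.const 3).mul h2))) (NPC.Poly.const []))

/-- powers of two -/
def pows (m : ℕ) : List ℕ := (List.range m).map fun j => 2 ^ j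

theorem poly_pows {α : Type} [TEnc α] {m : α → ℕ} (hm : UPoly m) : NPC.Poly (fun a => pows (m a)) := by
  have h1 : NPC.Poly (fun a => (List.range (m a)).map fun j =>
      valB (((List.range (m a)).filter (fun i => decide (i < j))).map (fun _ => false) ++ [true])) := by
    refine NPC.Poly.map (F := fun a j => valB (((List.range (m a)).filter
      (fun i => decide (i < j))).map (fun _ => false) ++ [true])) hm.range ?_
    refine NPC.Poly.valBits ?_
    have h2 : NPC.Poly (fun p : α × ℕ => List.range (m p.1)) := hm.range.comp (NPC.Poly.fst NPC.Poly.id)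
    fun_prop
  refine h1.congr fun a => ?_
  unfold pows
  refine List.map_congr_left fun j hj => ?_
  rw [List.mem_range] at hj
  have h3 : (List.range (m a)).filter (fun i => decide (i < j)) = List.range j := by
    obtain ⟨d, hd⟩ := Nat.exists_eq_add_of_le hj.le
    rw [hd, List.range_add, List.filter_append]
    have h1 : (List.range j).filter (fun k => decide (k < j)) = List.range j := by
      rw [List.filter_eq_self]
      intro k hk
      simpa using hk
    have h2 : ((List.range d).map (fun x => j + x)).filter (fun k => decide (k < j)) = [] := by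
      rw [List.filter_eq_nil_iff]
      intro k hk
      simp at hk ⊢
      omega
    rw [h1, h2, List.append_nil]
  rw [h3]
  have h4 : (List.range j).map (fun _ => false) = List.replicate j false := by
    rw [List.eq_replicate_iff]
    simp
  rw [h4, valB_replicate_false]
  simp

/-- The calibration instance with total size `n`. -/
def kl (n : ℕ) : List ℕ := pows (n.bits.tail.length) ++ [n - (pows (n.bits.tail.length)).sum]

theorem poly_kl {α : Type} [TEnc α] {n : α → ℕ} (hn : NPC.Poly n) : NPC.Poly (fun a => kl (n a)) := by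
  unfold kl
  have h1 : NPC.Poly (fun a => (n a).bits) := NPC.Poly.natBits hn
  have h2 : NPC.Poly (fun a => pows ((n a).bits.tail.length)) :=
    poly_pows (UPoly.length (NPC.Poly.tail h1))
  exact NPC.Poly.append h2 (NPC.Poly.cons (NPC.Poly.sub hn (NPC.Poly.sum h2)) (NPC.Poly.const []))

/-- The total size of the gadgets with answer `true`. -/
def sv (l : List ℕ) (out : List Bool) : ℕ :=
  (l.zipIdx.map fun x => if out.getD x.2 false then x.1 else 0).sum

theorem sv_eq (l : List ℕ) (out : List Bool) : sv l out = ss l (fun g => out.getD g false) := by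
  unfold sv ss
  have key : ∀ (l : List ℕ) (k : ℕ), ((l.zipIdx k).map
      (fun x => if out.getD x.2 false then x.1 else 0)).sum =
      ∑ g ∈ Finset.range l.length, if out.getD (k + g) false then l.getD g 0 else 0 := by
    intro l
    induction l with
    | nil => simp
    | cons a l ih =>
      intro k
      rw [List.zipIdx_cons, List.map_cons, List.sum_cons, ih, List.length_cons,
        Finset.sum_range_succ']
      simp only [List.getD_cons_succ, List.getD_cons_zero, add_zero]
      rw [add_comm]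
      congr 1
      refine Finset.sum_congr rfl fun g _ => ?_
      rw [show k + 1 + g = k + (g + 1) by ring]
  have := key l 0
  simpa using this

theorem poly_sv {α : Type} [TEnc α] {l : α → List ℕ} {o : α → List Bool} (hl : NPC.Poly l)
    (ho : NPC.Poly o) : NPC.Poly (fun a => sv (l a) (o a)) := by
  unfold sv
  fun_prop

/-- One query. -/
def qry (f : (Jobs × ℚ) × List Unit → List Bool) (l : List ℕ) (E : ℕ) (k : List Unit) : ℕ :=
  sv l (f ((gj l, (E : ℚ)), k))

theorem poly_qry {α : Type} [TEnc α] {f : (Jobs × ℚ) × List Unit → List Bool} (hf : NPC.Poly f)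
    {l : α → List ℕ} {E : α → ℕ} {k : α → List Unit} (hl : NPC.Poly l) (hE : NPC.Poly E) (hk : NPC.Poly k) :
    NPC.Poly (fun a => qry f (l a) (E a) (k a)) := by
  unfold qry
  refine poly_sv hl (hf.comp (NPC.Poly.pair (NPC.Poly.pair (poly_gj.comp hl) (poly_natCast_rat hE)) hk))

/-- The energy budget of the last query. -/
def ET (e0 e1 A t s0 s1 : ℕ) : ℕ := (e0 * A * s1 + e1 * A * t - (e0 * A * t + e1 * A * s0)) / (s1 - s0)

/-- The accuracy, in unary. -/
def acc (k0 n : ℕ) : List Unit := n.bits.map (fun _ => ()) ++ List.replicate k0 ()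

/-- The algorithm for subset sum. -/
def dec (f : (Jobs × ℚ) × List Unit → List Bool) (N e0 e1 k0 : ℕ) (x : List ℕ × ℕ) : Bool :=
  decide (qry f (x.1.map fun a => N * a)
    (ET e0 e1 x.1.sum (N * x.2)
      (qry f (kl (N * x.1.sum)) (e0 * x.1.sum) (acc k0 (N * x.1.sum)))
      (qry f (kl (N * x.1.sum)) (e1 * x.1.sum) (acc k0 (N * x.1.sum))))
    (acc k0 (N * x.1.sum)) = N * x.2)

theorem poly_dec {f : (Jobs × ℚ) × List Unit → List Bool} (hf : NPC.Poly f) (N e0 e1 k0 : ℕ) :
    NPC.Poly (dec f N e0 e1 k0) := by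
  unfold dec
  have hA : NPC.Poly (fun x : List ℕ × ℕ => x.1.sum) := by fun_prop
  have hNA : NPC.Poly (fun x : List ℕ × ℕ => N * x.1.sum) := by fun_prop
  have hT : NPC.Poly (fun x : List ℕ × ℕ => N * x.2) := by fun_prop
  have hl : NPC.Poly (fun x : List ℕ × ℕ => x.1.map fun a => N * a) := by fun_prop
  have hk : NPC.Poly (fun x : List ℕ × ℕ => acc k0 (N * x.1.sum)) := by
    unfold acc
    have h1 : NPC.Poly (fun x : List ℕ × ℕ => (N * x.1.sum).bits) := NPC.Poly.natBits hNA
    exact NPC.Poly.append (NPC.Poly.map (F := fun _ _ => ()) h1 (NPC.Poly.const ())) (NPC.Poly.const _)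
  have hK : NPC.Poly (fun x : List ℕ × ℕ => kl (N * x.1.sum)) := poly_kl hNA
  have q0 := poly_qry hf hK (NPC.Poly.mul (NPC.Poly.const e0) hA) hk
  have q1 := poly_qry hf hK (NPC.Poly.mul (NPC.Poly.const e1) hA) hk
  have hE : NPC.Poly (fun x : List ℕ × ℕ => ET e0 e1 x.1.sum (N * x.2)
      (qry f (kl (N * x.1.sum)) (e0 * x.1.sum) (acc k0 (N * x.1.sum)))
      (qry f (kl (N * x.1.sum)) (e1 * x.1.sum) (acc k0 (N * x.1.sum)))) := by
    unfold ET
    have g0 : NPC.Poly (fun x : List ℕ × ℕ => e0 * x.1.sum) := by fun_prop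
    have g1 : NPC.Poly (fun x : List ℕ × ℕ => e1 * x.1.sum) := by fun_prop
    exact NPC.Poly.div (NPC.Poly.sub (NPC.Poly.add (NPC.Poly.mul g0 q1) (NPC.Poly.mul g1 hT))
      (NPC.Poly.add (NPC.Poly.mul g0 hT) (NPC.Poly.mul g1 q0))) (NPC.Poly.sub q1 q0)
  exact NPC.Poly.decide_eq (poly_qry hf hl hE hk) hT

end Pool.Agent.W989.FT
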