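import Pool.Agent.W989.FT.LB2
import Pool.Agent.W989.FT.Ph

/-!
# Upper bound for the flow time
-/

open MeasureTheory Set

namespace Pool.Agent.W989.FT

/-- The schedule of a gadget of size `a` with jobs `p`, `p + 1` in the mode `b`. -/
noncomputable def blk (σ τ a : ℝ) (b : Bool) (p : ℕ) : List (ℝ × ℝ × ℕ) :=
  if b then [(4 * a / τ, τ, p), (3 * a / σ, σ, p + 1), (14 * a - 4 * a / τ - 3 * a / σ, 0, 0)]
  else [(a, σ, p), (3 * a / τ, τ, p + 1), (4 * a / σ - a, σ, p),
    (14 * a - 3 * a / τ - 4 * a / σ, 0, 0)]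

/-- The schedule of all gadgets. -/
noncomputable def full (σ τ : ℝ) : ℕ → List ℕ → (ℕ → Bool) → List (ℝ × ℝ × ℕ)
  | _, [], _ => []
  | p, a :: l, md => blk σ τ a (md 0) p ++ full σ τ (p + 2) l (fun g => md (g + 1))

section blk

variable {σ τ a : ℝ} (hσ : 1 / 2 ≤ σ) (hσ2 : σ ≤ 2) (hστ : σ ≤ τ) (hτ : τ ≤ 4) (ha : 0 < a)
include hσ hσ2 hστ hτ ha

theorem aux : a ≤ 4 * a / τ ∧ 0 < 3 * a / σ ∧ 3 * a / σ ≤ 6 * a ∧ 4 * a / τ ≤ 8 * a ∧
    0 < 3 * a / τ ∧ 3 * a / τ ≤ 6 * a ∧ 2 * a ≤ 4 * a / σ ∧ 4 * a / σ ≤ 8 * a ∧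
    τ * (4 * a / τ) = 4 * a ∧ σ * (3 * a / σ) = 3 * a ∧ τ * (3 * a / τ) = 3 * a ∧
    σ * (4 * a / σ) = 4 * a := by
  have h1 : 0 < σ := by linarith
  have h2 : 0 < τ := by linarith
  refine ⟨?_, by positivity, ?_, ?_, by positivity, ?_, ?_, ?_, ?_, ?_, ?_, ?_⟩
  · rw [le_div_iff₀ h2]; nlinarith
  · rw [div_le_iff₀ h1]; nlinarith
  · rw [div_le_iff₀ h2]; nlinarith
  · rw [div_le_iff₀ h2]; nlinarith
  · rw [le_div_iff₀ h1]; nlinarith
  · rw [div_le_iff₀ h1]; nlinarith
  · field_simp
  · field_simp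
  · field_simp
  · field_simp

theorem blk_pos (b : Bool) (p : ℕ) : (∀ x ∈ blk σ τ a b p, 0 ≤ x.1 ∧ 0 ≤ x.2.1) ∧
    dur (blk σ τ a b p) = 14 * a := by
  obtain ⟨h1, h2, h3, h4, h5, h6, h7, h8, h9, h10, h11, h12⟩ := aux hσ hσ2 hστ hτ ha
  cases b
  · simp only [blk, Bool.false_eq_true, if_false]
    constructor
    · intro x hx
      simp only [List.mem_cons, List.not_mem_nil, or_false] at hx
      rcases hx with rfl | rfl | rfl | rfl <;> refine ⟨?_, ?_⟩ <;> simp only <;> linarith
    · simp only [dur_cons, dur_nil]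
      ring
  · simp only [blk, if_true]
    constructor
    · intro x hx
      simp only [List.mem_cons, List.not_mem_nil, or_false] at hx
      rcases hx with rfl | rfl | rfl <;> refine ⟨?_, ?_⟩ <;> simp only <;> linarith
    · simp only [dur_cons, dur_nil]
      ring

theorem blk_ok (b : Bool) (p : ℕ) (t : ℝ) (ht : (phAt (blk σ τ a b p) t).1 ≠ 0) :
    ((phAt (blk σ τ a b p) t).2 = p ∧ IP (Fw p) (blk σ τ a b p) t < 4 * a) ∨
    ((phAt (blk σ τ a b p) t).2 = p + 1 ∧ a ≤ t ∧ IP (Fw (p + 1)) (blk σ τ a b p) t < 3 * a) := by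
  obtain ⟨h1, h2, h3, h4, h5, h6, h7, h8, h9, h10, h11, h12⟩ := aux hσ hσ2 hστ hτ ha
  have hσ0 : 0 < σ := by linarith
  have hτ0 : 0 < τ := by linarith
  have np : p ≠ p + 1 := by omega
  have np' : p + 1 ≠ p := by omega
  cases b
  · simp only [blk, Bool.false_eq_true, if_false] at ht ⊢
    generalize 3 * a / τ = x3 at *
    generalize 4 * a / σ = x4 at *
    by_cases c1 : t < a
    · left
      rw [phAt, if_pos c1, IP, if_pos c1.le]
      refine ⟨rfl, ?_⟩
      simp only [Fw, if_true]
      nlinarith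
    · by_cases c2 : t - a < x3
      · right
        rw [phAt, if_neg c1, phAt, if_pos c2]
        refine ⟨rfl, not_lt.1 c1, ?_⟩
        rw [IP]
        split_ifs with c3
        · simp only [Fw, np, if_false, zero_mul]
          linarith
        · rw [IP, if_pos c2.le]
          simp only [Fw, np, if_false, zero_mul, if_true, zero_add]
          nlinarith
      · by_cases c3 : t - a - x3 < x4 - a
        · left
          rw [phAt, if_neg c1, phAt, if_neg c2, phAt, if_pos c3]
          refine ⟨rfl, ?_⟩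
          rw [IP]
          split_ifs with c4
          · simp only [Fw, if_true]
            nlinarith
          · rw [IP]
            split_ifs with c5
            · simp only [Fw, np', if_false, zero_mul, if_true]
              nlinarith
            · rw [IP, if_pos c3.le]
              simp only [Fw, np', if_false, zero_mul, if_true]
              nlinarith
        · exfalso
          apply ht
          rw [phAt, if_neg c1, phAt, if_neg c2, phAt, if_neg c3, phAt]
          split_ifs <;> rfl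
  · simp only [blk, if_true] at ht ⊢
    generalize 4 * a / τ = x1 at *
    generalize 3 * a / σ = x2 at *
    by_cases c1 : t < x1
    · left
      rw [phAt, if_pos c1, IP, if_pos c1.le]
      refine ⟨rfl, ?_⟩
      simp only [Fw, if_true]
      nlinarith
    · by_cases c2 : t - x1 < x2
      · right
        rw [phAt, if_neg c1, phAt, if_pos c2]
        refine ⟨rfl, by linarith, ?_⟩
        rw [IP]
        split_ifs with c3
        · simp only [Fw, np, if_false, zero_mul]
          linarith
        · rw [IP, if_pos c2.le]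
          simp only [Fw, np, if_false, zero_mul, if_true, zero_add]
          nlinarith
      · exfalso
        apply ht
        rw [phAt, if_neg c1, phAt, if_neg c2, phAt]
        split_ifs <;> rfl

omit hσ hσ2 hστ hτ ha in
theorem blk_out (b : Bool) (p i : ℕ) (hi : i ≠ p) (hi' : i ≠ p + 1) (T : ℝ) :
    IP (Fw i) (blk σ τ a b p) T = 0 := by
  have e : ∀ x ∈ blk σ τ a b p, Fw i x.2 = 0 := by
    intro x hx
    unfold Fw
    cases b
    · simp only [blk, Bool.false_eq_true, if_false] at hx
      simp only [List.mem_cons, List.not_mem_nil, or_false] at hx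
      rcases hx with rfl | rfl | rfl | rfl <;> simp [Ne.symm hi, Ne.symm hi']
    · simp only [blk, if_true] at hx
      simp only [List.mem_cons, List.not_mem_nil, or_false] at hx
      rcases hx with rfl | rfl | rfl <;> simp [Ne.symm hi, Ne.symm hi']
  generalize blk σ τ a b p = L at e
  induction L generalizing T with
  | nil => rfl
  | cons x L ih =>
    rw [IP, e x (List.mem_cons_self ..), zero_mul, zero_mul, zero_add,
      ih _ (fun y hy => e y (List.mem_cons_of_mem _ hy)), ite_self]

theorem blk_tim (b : Bool) (p : ℕ) {θ : ℝ} (hθ : 2 / τ = θ / σ) :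
    ∃ Cp Cq : ℝ, 0 ≤ Cp ∧ Cp ≤ 14 * a ∧ 0 ≤ Cq ∧ Cq ≤ 14 * a ∧
      4 * a ≤ IP (Fw p) (blk σ τ a b p) Cp ∧ 3 * a ≤ IP (Fw (p + 1)) (blk σ τ a b p) Cq ∧
      Cp + (Cq - a) = a * (if b then 4 * θ + 3 else 4 + 3 * θ) / σ - (if b then a else 0) := by
  obtain ⟨h1, h2, h3, h4, h5, h6, h7, h8, h9, h10, h11, h12⟩ := aux hσ hσ2 hστ hτ ha
  have hσ0 : 0 < σ := by linarith
  have hτ0 : 0 < τ := by linarith
  have np : p ≠ p + 1 := by omega
  have np' : p + 1 ≠ p := by omega
  cases b
  · refine ⟨3 * a / τ + 4 * a / σ, a + 3 * a / τ, by linarith, by linarith, by linarith,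
      by linarith, ?_, ?_, ?_⟩
    · simp only [blk, Bool.false_eq_true, if_false]
      generalize 3 * a / τ = x3 at *
      generalize 4 * a / σ = x4 at *
      rw [IP, if_neg (by linarith), IP, if_neg (by linarith), IP, if_pos (by linarith)]
      simp only [Fw, np', if_false, if_true, zero_mul]
      nlinarith
    · simp only [blk, Bool.false_eq_true, if_false]
      generalize 3 * a / τ = x3 at *
      generalize 4 * a / σ = x4 at *
      rw [IP, if_neg (by linarith), IP, if_pos (by linarith)]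
      simp only [Fw, np, if_false, if_true, zero_mul]
      nlinarith
    · have e1 : 3 * a / τ = 3 * a * (2 / τ) / 2 := by ring
      rw [e1, hθ]
      simp only [Bool.false_eq_true, if_false]
      ring
  · refine ⟨4 * a / τ, 4 * a / τ + 3 * a / σ, by linarith, by linarith, by linarith,
      by linarith, ?_, ?_, ?_⟩
    · simp only [blk, if_true]
      generalize 4 * a / τ = x1 at *
      generalize 3 * a / σ = x2 at *
      rw [IP, if_pos le_rfl]
      simp only [Fw, if_true]
      linarith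
    · simp only [blk, if_true]
      generalize 4 * a / τ = x1 at *
      generalize 3 * a / σ = x2 at *
      rw [IP, if_neg (by linarith), IP, if_pos (by linarith)]
      simp only [Fw, np, if_false, if_true, zero_mul]
      nlinarith
    · have e1 : 4 * a / τ = 4 * a * (2 / τ) / 2 := by ring
      rw [e1, hθ]
      simp only [if_true]
      ring

theorem blk_en {α : ℝ} (hα : 1 < α) (b : Bool) (p : ℕ) {θ : ℝ}
    (hθ : τ ^ (α - 1) = θ * σ ^ (α - 1)) :
    IP (fun y => y.1 ^ α) (blk σ τ a b p) (dur (blk σ τ a b p)) =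
      a * (if b then 4 * θ + 3 else 4 + 3 * θ) * σ ^ (α - 1) := by
  have hσ0 : 0 < σ := by linarith
  have hτ0 : 0 < τ := by linarith
  have e1 : τ ^ α = τ ^ (α - 1) * τ := by
    rw [← Real.rpow_add_one hτ0.ne', sub_add_cancel]
  have e2 : σ ^ α = σ ^ (α - 1) * σ := by
    rw [← Real.rpow_add_one hσ0.ne', sub_add_cancel]
  have e3 : (0 : ℝ) ^ α = 0 := Real.zero_rpow (by linarith)
  rw [IP_dur (fun x hx => ((blk_pos hσ hσ2 hστ hτ ha b p).1 x hx).1)]
  cases b
  · simp only [blk, Bool.false_eq_true, if_false, List.map_cons, List.map_nil, List.sum_cons,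
      List.sum_nil, e1, e2, e3, hθ]
    field_simp
    ring
  · simp only [blk, if_true, List.map_cons, List.map_nil, List.sum_cons,
      List.sum_nil, e1, e2, e3, hθ]
    field_simp
    ring

end blk

/-- The properties of the schedule of the gadgets `l`, the first of which is released at `R` and has
the jobs `p`, `p + 1`. -/
structure Good (α σ : ℝ) (R p : ℕ) (l : List ℕ) (md : ℕ → Bool) (L : List (ℝ × ℝ × ℕ)) : Prop where
  pos : ∀ x ∈ L, 0 ≤ x.1 ∧ 0 ≤ x.2.1
  durL : dur L = 14 * (l.sum : ℝ)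
  out : ∀ i T, 0 ≤ T → (i < p ∨ p + 2 * l.length ≤ i) → IP (Fw i) L T = 0
  ok : ∀ t, 0 ≤ t → (phAt L t).1 ≠ 0 → ∃ i < 2 * l.length, (phAt L t).2 = p + i ∧
    rel (gjobs R l) i ≤ R + t ∧ IP (Fw (p + i)) L t < wrk (gjobs R l) i
  tim : ∃ C : ℕ → ℝ, (∀ i < 2 * l.length, 0 ≤ C i ∧ wrk (gjobs R l) i ≤ IP (Fw (p + i)) L (C i)) ∧
    ∑ i ∈ Finset.range (2 * l.length), (R + C i - rel (gjobs R l) i) = XX α l md / σ - ss l md
  en : IP (fun y => y.1 ^ α) L (dur L) = XX α l md * σ ^ (α - 1)

theorem rel_cons2 (R a : ℕ) (l : List ℕ) (i : ℕ) :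
    rel (gjobs R (a :: l)) (i + 2) = rel (gjobs (R + 14 * a) l) i := by
  simp [rel, gjobs]

theorem wrk_cons2 (R a : ℕ) (l : List ℕ) (i : ℕ) :
    wrk (gjobs R (a :: l)) (i + 2) = wrk (gjobs (R + 14 * a) l) i := by
  simp [wrk, gjobs]

theorem XX_cons (α : ℝ) (a : ℕ) (l : List ℕ) (md : ℕ → Bool) :
    XX α (a :: l) md = a * gval α (md 0) + XX α l (fun g => md (g + 1)) := by
  unfold XX
  rw [List.length_cons, Finset.sum_range_succ']
  simp [add_comm]

theorem ss_cons (a : ℕ) (l : List ℕ) (md : ℕ → Bool) :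
    ss (a :: l) md = (if md 0 then a else 0) + ss l (fun g => md (g + 1)) := by
  unfold ss
  rw [List.length_cons, Finset.sum_range_succ']
  simp [add_comm]

theorem IP_zero {F : ℝ × ℕ → ℝ} {L : List (ℝ × ℝ × ℕ)} (h : ∀ x ∈ L, 0 ≤ x.1) : IP F L 0 = 0 := by
  cases L with
  | nil => rfl
  | cons y l => rw [IP, if_pos (h y (by simp)), mul_zero]

theorem good_full {α σ τ : ℝ} (hα : 1 < α) (hσ : 1 / 2 ≤ σ) (hσ2 : σ ≤ 2) (hστ : σ ≤ τ)
    (hτ : τ ≤ 4) (h2 : 2 / τ = 2 ^ ((α - 1) / α) / σ)
    (h3 : τ ^ (α - 1) = 2 ^ ((α - 1) / α) * σ ^ (α - 1)) (l : List ℕ) (hl : ∀ a ∈ l, 0 < a)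
    (R p : ℕ) (md : ℕ → Bool) : Good α σ R p l md (full σ τ p l md) := by
  induction l generalizing R p md with
  | nil =>
    refine ⟨by simp [full], by simp [full], fun i T _ _ => rfl, fun t _ h => absurd rfl h,
      ⟨fun _ => 0, by simp, by simp [XX, ss]⟩, by simp [full, IP, XX]⟩
  | cons a l ih =>
    have ha : (0 : ℝ) < (a : ℝ) := by exact_mod_cast hl a (List.mem_cons_self ..)
    have G := ih (fun b hb => hl b (List.mem_cons_of_mem _ hb)) (R + 14 * a) (p + 2)
      (fun g => md (g + 1))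
    obtain ⟨bp, bd⟩ := blk_pos hσ hσ2 hστ hτ ha (md 0) p
    have bok := blk_ok hσ hσ2 hστ hτ ha (md 0) p
    have bout := blk_out (σ := σ) (τ := τ) (a := (a : ℝ)) (md 0) p
    obtain ⟨Cp, Cq, t1, t2, t3, t4, t5, t6, t7⟩ := blk_tim hσ hσ2 hστ hτ ha (md 0) p h2
    have ben := blk_en hσ hσ2 hστ hτ ha hα (md 0) p h3
    rw [full]
    generalize blk σ τ a (md 0) p = B at *
    generalize full σ τ (p + 2) l (fun g => md (g + 1)) = L at *
    have bp' : ∀ x ∈ B, 0 ≤ x.1 := fun x hx => (bp x hx).1
    have Lp' : ∀ x ∈ L, 0 ≤ x.1 := fun x hx => (G.pos x hx).1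
    have Lout : ∀ i T, 0 ≤ T → (i = p ∨ i = p + 1) → IP (Fw i) L T = 0 := fun i T hT hi =>
      G.out i T hT (by omega)
    have r0 : rel (gjobs R (a :: l)) 0 = R := by simp [rel, gjobs]
    have r1 : rel (gjobs R (a :: l)) 1 = R + a := by simp [rel, gjobs]
    have w0 : wrk (gjobs R (a :: l)) 0 = 4 * a := by simp [wrk, gjobs]
    have w1 : wrk (gjobs R (a :: l)) 1 = 3 * a := by simp [wrk, gjobs]
    refine ⟨?_, ?_, ?_, ?_, ?_, ?_⟩
    · intro x hx
      rcases List.mem_append.1 hx with h | h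
      · exact bp x h
      · exact G.pos x h
    · rw [dur_append, bd, G.durL, List.sum_cons]
      push_cast
      ring
    · intro i T hT hi
      rw [List.length_cons] at hi
      rw [IP_append bp' Lp' hT]
      split_ifs with h
      · exact bout i (by omega) (by omega) T
      · rw [bout i (by omega) (by omega), G.out i _ (by linarith) (by omega), add_zero]
    · intro t ht hne
      rw [phAt_append bp' ht, bd] at hne ⊢
      by_cases hlt : t < 14 * (a : ℝ)
      · rw [if_pos hlt] at hne ⊢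
        rcases bok t hne with ⟨e1, e2⟩ | ⟨e1, e2, e3⟩
        · refine ⟨0, by simp, by simpa using e1, by rw [r0]; linarith, ?_⟩
          rw [IP_append bp' Lp' ht, if_pos (by rw [bd]; exact hlt.le), w0]
          simpa using e2
        · refine ⟨1, by simp; omega, by simpa using e1, by rw [r1]; linarith, ?_⟩
          rw [IP_append bp' Lp' ht, if_pos (by rw [bd]; exact hlt.le), w1]
          exact e3
      · rw [if_neg hlt] at hne ⊢
        push Not at hlt
        obtain ⟨i, hi, e1, e2, e3⟩ := G.ok (t - 14 * a) (by linarith) hne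
        refine ⟨i + 2, by rw [List.length_cons]; omega, by rw [e1]; ring, ?_, ?_⟩
        · rw [rel_cons2]
          push_cast at e2
          linarith
        · rw [wrk_cons2, IP_append bp' Lp' ht, show p + (i + 2) = p + 2 + i by ring, bd]
          split_ifs with h
          · rw [bout _ (by omega) (by omega)]
            have : t - 14 * (a : ℝ) = 0 := by linarith
            rw [this, IP_zero Lp'] at e3
            exact e3
          · rw [bout _ (by omega) (by omega), zero_add]
            exact e3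
    · obtain ⟨C, hC1, hC2⟩ := G.tim
      refine ⟨fun i => if i = 0 then Cp else if i = 1 then Cq else 14 * a + C (i - 2), ?_, ?_⟩
      · intro i hi
        rcases i with _ | _ | i
        · simp only [if_true, add_zero]
          refine ⟨t1, ?_⟩
          rw [w0, IP_append bp' Lp' t1, if_pos (by rw [bd]; exact t2)]
          exact t5
        · simp only [zero_add, one_ne_zero, if_false, if_true]
          refine ⟨t3, ?_⟩
          rw [w1, IP_append bp' Lp' t3, if_pos (by rw [bd]; exact t4)]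
          exact t6
        · have hi' : i < 2 * l.length := by rw [List.length_cons] at hi; omega
          obtain ⟨c1, c2⟩ := hC1 i hi'
          have e : (if i + 1 + 1 = 0 then Cp else if i + 1 + 1 = 1 then Cq else
              14 * (a : ℝ) + C (i + 1 + 1 - 2)) = 14 * a + C i := by
            rw [if_neg (by omega), if_neg (by omega)]
            congr 2
          simp only [e]
          refine ⟨by linarith, ?_⟩
          rw [show i + 1 + 1 = i + 2 from rfl, wrk_cons2, IP_append bp' Lp' (by linarith), bd,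
            show p + (i + 2) = p + 2 + i by ring]
          split_ifs with h
          · have : C i = 0 := by linarith
            rw [this, IP_zero Lp'] at c2
            rw [bout _ (by omega) (by omega)]
            exact c2
          · rw [bout _ (by omega) (by omega), zero_add, add_sub_cancel_left]
            exact c2
      · rw [List.length_cons, show 2 * (l.length + 1) = 2 * l.length + 1 + 1 by ring,
          Finset.sum_range_succ', Finset.sum_range_succ']
        have e : ∑ k ∈ Finset.range (2 * l.length), ((R : ℝ) +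
            (if k + 1 + 1 = 0 then Cp else if k + 1 + 1 = 1 then Cq else
              14 * (a : ℝ) + C (k + 1 + 1 - 2)) - rel (gjobs R (a :: l)) (k + 1 + 1)) =
            ∑ k ∈ Finset.range (2 * l.length),
              (((R + 14 * a : ℕ) : ℝ) + C k - rel (gjobs (R + 14 * a) l) k) := by
          refine Finset.sum_congr rfl fun k _ => ?_
          rw [if_neg (by omega), if_neg (by omega), show k + 1 + 1 = k + 2 from rfl, rel_cons2]
          push_cast
          ring_nf
        rw [e, hC2]
        simp only [zero_add, one_ne_zero, if_false, if_true, r0, r1]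
        rw [XX_cons, ss_cons, gval]
        push_cast
        have t7' : (R : ℝ) + Cq - (R + a) + (R + Cp - R) =
            a * (if md 0 = true then 4 * 2 ^ ((α - 1) / α) + 3 else
              4 + 3 * 2 ^ ((α - 1) / α)) / σ - (if md 0 = true then (a : ℝ) else 0) := by
          rw [← t7]
          ring
        rw [add_div]
        linarith
    · have hLn : 0 ≤ dur L := dur_nonneg Lp'
      rw [dur_append, IP_append bp' Lp' (by linarith [dur_nonneg bp'])]
      have e1 : (if dur B + dur L ≤ dur B then IP (fun y => y.1 ^ α) B (dur B + dur L)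
          else IP (fun y => y.1 ^ α) B (dur B) + IP (fun y => y.1 ^ α) L (dur B + dur L - dur B)) =
          IP (fun y => y.1 ^ α) B (dur B) + IP (fun y => y.1 ^ α) L (dur L) := by
        split_ifs with h
        · have : dur L = 0 := by linarith
          rw [this, add_zero, IP_zero Lp', add_zero]
        · rw [add_sub_cancel_left]
      rw [e1, ben, G.en, XX_cons, gval]
      ring

theorem two_rpow {α : ℝ} (hα : 1 < α) {σ : ℝ} (hσ : 0 < σ) :
    2 / (2 ^ (1 / α) * σ) = 2 ^ ((α - 1) / α) / σ ∧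
    (2 ^ (1 / α) * σ) ^ (α - 1) = 2 ^ ((α - 1) / α) * σ ^ (α - 1) ∧
    (1 : ℝ) ≤ 2 ^ (1 / α) ∧ (2 : ℝ) ^ (1 / α) ≤ 2 := by
  have h0 : α ≠ 0 := by linarith
  have h2 : (0 : ℝ) < 2 ^ (1 / α) := Real.rpow_pos_of_pos (by norm_num) _
  refine ⟨?_, ?_, ?_, ?_⟩
  · have e : (α - 1) / α = 1 - 1 / α := by field_simp
    rw [e, Real.rpow_sub (by norm_num), Real.rpow_one]
    field_simp
  · rw [Real.mul_rpow h2.le hσ.le, ← Real.rpow_mul (by norm_num)]
    congr 2
    ring
  · exact Real.one_le_rpow (by norm_num) (by positivity)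
  · have : (2 : ℝ) ^ (1 / α) ≤ 2 ^ (1 : ℝ) := by
      refine Real.rpow_le_rpow_of_exponent_le (by norm_num) ?_
      rw [div_le_one (by linarith)]
      exact hα.le
    rwa [Real.rpow_one] at this

/-- The schedule in the modes `md` is feasible. -/
theorem exists_sched {α σ : ℝ} (hα : 1 < α) (hσ : 1 / 2 ≤ σ) (hσ2 : σ ≤ 2) (l : List ℕ)
    (hl : ∀ a ∈ l, 0 < a) (md : ℕ → Bool) :
    ∃ S, Feasible α (gjobs 0 l) S ∧ S.energy α = XX α l md * σ ^ (α - 1) ∧
      flow (gjobs 0 l) S ≤ XX α l md / σ - ss l md := by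
  have hσ0 : 0 < σ := by linarith
  obtain ⟨h2, h3, h4, h5⟩ := two_rpow hα hσ0
  have G := good_full hα hσ hσ2 (τ := 2 ^ (1 / α) * σ) (by nlinarith) (by nlinarith) h2 h3 l hl 0 0 md
  generalize full σ (2 ^ (1 / α) * σ) 0 l md = L at G
  have Lp : ∀ x ∈ L, 0 ≤ x.1 := fun x hx => (G.pos x hx).1
  obtain ⟨C, hC1, hC2⟩ := G.tim
  obtain ⟨e1, e2⟩ := energy_ofPh hα Lp
  have hm := measurable_phAt L
  have hsp : ∀ t, 0 ≤ (phAt L t).1 := by
    have := G.pos
    clear G e1 e2 hm Lp hC1 hC2
    intro t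
    induction L generalizing t with
    | nil => exact le_rfl
    | cons x L ih =>
      rw [phAt]
      split_ifs
      · exact (this x (List.mem_cons_self ..)).2
      · exact ih (fun y hy => this y (List.mem_cons_of_mem _ hy)) _
  refine ⟨ofPh L, ⟨hm.fst, hm.snd, hsp, e1, ?_, ?_⟩, ?_, ?_⟩
  · intro t ht hne
    obtain ⟨i, hi, g1, g2, g3⟩ := G.ok t ht hne
    rw [zero_add] at g1 g3
    have g1' : (ofPh L).job t = i := g1
    rw [g1', length_gjobs, work_ofPh Lp i ht]
    refine ⟨hi, ?_, g3⟩
    simpa using g2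
  · intro i hi
    rw [length_gjobs] at hi
    obtain ⟨c1, c2⟩ := hC1 i hi
    refine ⟨C i, c1, ?_⟩
    rw [work_ofPh Lp i c1]
    simpa using c2
  · rw [e2, G.en]
  · rw [← hC2]
    unfold flow
    rw [length_gjobs]
    refine Finset.sum_le_sum fun i hi => ?_
    rw [Finset.mem_range] at hi
    obtain ⟨c1, c2⟩ := hC1 i hi
    rw [zero_add] at c2
    have := completion_le (J := gjobs 0 l) (S := ofPh L) (i := i) c1 (by rw [work_ofPh Lp i c1]; exact c2)
    push_cast
    linarith

theorem completion_nonneg (J : Jobs) (S : Sched) (i : ℕ) : 0 ≤ completion J S i :=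
  Real.sInf_nonneg fun _ h => h.1

theorem opt_le {α E : ℝ} {J : Jobs} {S : Sched} (h : Feasible α J S) (hE : S.energy α ≤ E) :
    opt α J E ≤ flow J S := by
  refine csInf_le ⟨∑ i ∈ Finset.range J.length, (0 - rel J i), ?_⟩ ⟨S, h, hE, rfl⟩
  rintro _ ⟨S', _, _, rfl⟩
  refine Finset.sum_le_sum fun i _ => ?_
  have := completion_nonneg J S' i
  linarith

/-- **Upper bound.** -/
theorem upper {α σ E : ℝ} (hα : 1 < α) (hσ : 1 / 2 ≤ σ) (hσ2 : σ ≤ 2) (l : List ℕ)
    (hl : ∀ a ∈ l, 0 < a) (md : ℕ → Bool) (hE : XX α l md * σ ^ (α - 1) = E) :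
    opt α (gjobs 0 l) E ≤ XX α l md / σ - ss l md := by
  obtain ⟨S, h1, h2, h3⟩ := exists_sched hα hσ hσ2 l hl md
  exact (opt_le h1 (by rw [h2, hE])).trans h3

/-- **Lower bound.** -/
theorem lower' {α σ E : ℝ} (hα : 1 < α) (l : List ℕ) (hl : ∀ a ∈ l, 0 < a) {S : Sched}
    (h : Feasible α (gjobs 0 l) S) (hS : S.energy α ≤ E) (md : ℕ → Bool)
    (hA : ∀ g < l.length, md g = true →
      completion (gjobs 0 l) S (2 * g) ≤ completion (gjobs 0 l) S (2 * g + 1))
    (hB : ∀ g < l.length, md g = false →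
      completion (gjobs 0 l) S (2 * g + 1) ≤ completion (gjobs 0 l) S (2 * g))
    (hσ : 0 < σ) (hE : XX α l md * σ ^ (α - 1) = E) :
    XX α l md / σ - ss l md ≤ flow (gjobs 0 l) S := by
  have h1 := lower hα l hl 0 h md hA hB hσ
  have hα1 : 0 < α - 1 := by linarith
  have hp : 0 < σ ^ α := Real.rpow_pos_of_pos hσ α
  have hp' : 0 < σ ^ (α - 1) := Real.rpow_pos_of_pos hσ _
  have e1 : σ ^ α = σ ^ (α - 1) * σ := by
    rw [← Real.rpow_add_one hσ.ne', sub_add_cancel]
  have h2 : S.energy α / ((α - 1) * σ ^ α) ≤ XX α l md / ((α - 1) * σ) := by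
    rw [e1, div_le_div_iff₀ (by positivity) (by positivity)]
    rw [← hE] at hS
    have := mul_le_mul_of_nonneg_right hS (mul_pos hα1 hσ).le
    nlinarith
  have e2 : α / (α - 1) / σ * XX α l md = XX α l md / σ + XX α l md / ((α - 1) * σ) := by
    field_simp
    ring
  rw [e2] at h1
  linarith

end Pool.Agent.W989.FT
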